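import Mathlib

/-!
# Spectra of minimal defining sets of 1-designs are arbitrary up to translation

For every `k ≥ 3` and every nonempty finite set `A` of natural numbers there is a simple
`1`-`(v,k,lam)` design whose minimal defining sets have exactly the sizes `a + c`, `a ∈ A`,
for some constant `c`.
-/

namespace Pool.Agent.Results.MP_13ec72_co.ArbitrarySpectrum

open Finset

section Definitions

variable {V : Type} [Fintype V] [DecidableEq V]

/-- `B` is (the block set of) a simple `t`-`(v,k,lam)` design on the point set `V`, `v = |V|`: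
every block is a `k`-subset and every `t`-subset of `V` lies in exactly `lam` blocks. -/
def IsDesign (t k lam : ℕ) (B : Finset (Finset V)) : Prop :=
  (∀ b ∈ B, b.card = k) ∧
    ∀ T : Finset V, T.card = t → (B.filter (fun b => T ⊆ b)).card = lam

/-- `S` is a defining set of the design `B`: it consists of blocks of `B`, and `B` is the only
`t`-`(v,k,lam)` design on `V` containing `S`. -/
def IsDefining (t k lam : ℕ) (B S : Finset (Finset V)) : Prop :=
  S ⊆ B ∧ ∀ B' : Finset (Finset V), IsDesign t k lam B' → S ⊆ B' → B' = B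

/-- `S` is a minimal defining set of `B`: no proper subset of `S` is a defining set of `B`. -/
def IsMinimalDefining (t k lam : ℕ) (B S : Finset (Finset V)) : Prop :=
  IsDefining t k lam B S ∧ ∀ S' : Finset (Finset V), S' ⊂ S → ¬ IsDefining t k lam B S'

/-- The spectrum of `B`: the set of sizes of its minimal defining sets. -/
def Spec (t k lam : ℕ) (B : Finset (Finset V)) : Set ℕ :=
  {n | ∃ S : Finset (Finset V), IsMinimalDefining t k lam B S ∧ S.card = n}

end Definitions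

section Abstract

variable {V : Type} [Fintype V] [DecidableEq V]

lemma isDesign_one {k lam : ℕ} {B : Finset (Finset V)} :
    IsDesign 1 k lam B ↔
      (∀ b ∈ B, b.card = k) ∧ ∀ p : V, (B.filter (fun b => p ∈ b)).card = lam := by
  constructor
  · rintro ⟨h1, h2⟩
    refine ⟨h1, fun p => ?_⟩
    have := h2 {p} (card_singleton p)
    simpa [singleton_subset_iff] using this
  · rintro ⟨h1, h2⟩
    refine ⟨h1, fun T hT => ?_⟩
    obtain ⟨p, rfl⟩ := card_eq_one.mp hT
    simpa [singleton_subset_iff] using h2 p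

lemma sum_card_eq (B : Finset (Finset V)) :
    ∑ b ∈ B, b.card = ∑ p : V, (B.filter (fun b => p ∈ b)).card := by
  have h1 : ∀ b ∈ B, b.card = ∑ p : V, if p ∈ b then 1 else 0 := by
    intro b _
    rw [← Finset.card_filter]
    congr 1
    ext p
    simp
  rw [Finset.sum_congr rfl h1, Finset.sum_comm]
  refine Finset.sum_congr rfl fun p _ => ?_
  rw [← Finset.card_filter]

lemma card_mul_eq {k lam : ℕ} {B : Finset (Finset V)} (hB : IsDesign 1 k lam B) :
    B.card * k = Fintype.card V * lam := by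
  obtain ⟨h1, h2⟩ := isDesign_one.mp hB
  have h := sum_card_eq B
  rw [Finset.sum_congr rfl h1, Finset.sum_congr rfl (fun p _ => h2 p)] at h
  simpa using h

lemma card_eq_of_design {k lam : ℕ} {B B' : Finset (Finset V)} (hk : 0 < k)
    (hB : IsDesign 1 k lam B) (hB' : IsDesign 1 k lam B') : B'.card = B.card := by
  have h1 := card_mul_eq hB
  have h2 := card_mul_eq hB'
  exact Nat.eq_of_mul_eq_mul_right hk (h2.trans h1.symm)

lemma card_filter_split {X Y : Finset (Finset V)} (h : X ⊆ Y) (p : V) :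
    (Y.filter (fun b => p ∈ b)).card
      = (X.filter (fun b => p ∈ b)).card + ((Y \ X).filter (fun b => p ∈ b)).card := by
  conv_lhs => rw [← Finset.union_sdiff_of_subset h, Finset.filter_union]
  exact Finset.card_union_of_disjoint (Finset.disjoint_filter_filter Finset.disjoint_sdiff)

/-- A family of blocks with a common kernel of size `k - 1` contains no trade. -/
lemma clique_defining {κ lam : ℕ} {B : Finset (Finset V)} (hB : IsDesign 1 (κ + 1) lam B)
    {C : Finset (Finset V)} (hC : C ⊆ B) (K : Finset V) (hK : K.card = κ)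
    (hCK : ∀ b ∈ C, K ⊆ b) : IsDefining 1 (κ + 1) lam B (B \ C) := by
  refine ⟨Finset.sdiff_subset, fun B' hB' hsub => ?_⟩
  obtain ⟨hB1, hB2⟩ := isDesign_one.mp hB
  obtain ⟨hB1', hB2'⟩ := isDesign_one.mp hB'
  set R := B' \ (B \ C) with hR
  have hBC : B \ (B \ C) = C := by
    rw [Finset.sdiff_sdiff_eq_self hC]
  have hdeg : ∀ p : V, (R.filter (fun b => p ∈ b)).card = (C.filter (fun b => p ∈ b)).card := by
    intro p
    have e1 := card_filter_split hsub p
    have e2 := card_filter_split (Finset.sdiff_subset (s := B) (t := C)) p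
    rw [hBC] at e2
    rw [hB2' p, ← hR] at e1
    rw [hB2 p] at e2
    omega
  have hcard : R.card = C.card := by
    have e := card_eq_of_design (Nat.succ_pos κ) hB hB'
    have e1 : R.card + (B \ C).card = B'.card := Finset.card_sdiff_add_card_eq_card hsub
    have e2 : (B \ C).card + C.card = B.card := Finset.card_sdiff_add_card_eq_card hC
    omega
  have hRK : ∀ b ∈ R, K ⊆ b := by
    intro b hb p hp
    have h1 : (C.filter (fun b => p ∈ b)) = C :=
      Finset.filter_true_of_mem fun c hc => hCK c hc hp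
    have h2 : (R.filter (fun b => p ∈ b)).card = R.card := by rw [hdeg p, h1, hcard]
    have h3 : R.filter (fun b => p ∈ b) = R :=
      Finset.eq_of_subset_of_card_le (Finset.filter_subset _ _) h2.ge
    have : b ∈ R.filter (fun b => p ∈ b) := by rw [h3]; exact hb
    exact (Finset.mem_filter.mp this).2
  have hRC : R ⊆ C := by
    intro b hb
    have hbc : b.card = κ + 1 := hB1' b (Finset.mem_sdiff.mp hb).1
    have hx : ∃ x ∈ b, x ∉ K := by
      by_contra hcon
      push Not at hcon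
      have := Finset.card_le_card (show b ⊆ K from hcon)
      omega
    obtain ⟨x, hxb, hxK⟩ := hx
    have h1 : 0 < (R.filter (fun b => x ∈ b)).card :=
      Finset.card_pos.mpr ⟨b, Finset.mem_filter.mpr ⟨hb, hxb⟩⟩
    rw [hdeg x] at h1
    obtain ⟨c, hc⟩ := Finset.card_pos.mp h1
    obtain ⟨hcC, hxc⟩ := Finset.mem_filter.mp hc
    have hc1 : insert x K ⊆ c := Finset.insert_subset hxc (hCK c hcC)
    have hb1 : insert x K ⊆ b := Finset.insert_subset hxb (hRK b hb)
    have hcardI : (insert x K).card = κ + 1 := by rw [Finset.card_insert_of_notMem hxK, hK]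
    have e1 : insert x K = c :=
      Finset.eq_of_subset_of_card_le hc1 (by rw [hcardI, hB1 c (hC hcC)])
    have e2 : insert x K = b :=
      Finset.eq_of_subset_of_card_le hb1 (by rw [hcardI, hbc])
    rw [← e2, e1]
    exact hcC
  have hRC' : R = C := Finset.eq_of_subset_of_card_le hRC hcard.ge
  have e1 : (B \ C) ∪ R = B' := Finset.union_sdiff_of_subset hsub
  have e2 : (B \ C) ∪ C = B := Finset.sdiff_union_of_subset hC
  rw [← e1, hRC', e2]

/-- Two blocks with different kernels can be switched, so one of them is in every defining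
set. -/
lemma mem_or_mem {κ lam : ℕ} {B : Finset (Finset V)} (hB : IsDesign 1 (κ + 1) lam B)
    (K : Finset V → Finset V) (hK : ∀ b ∈ B, K b ⊆ b ∧ (K b).card = κ)
    (hfar : ∀ b ∈ B, ∀ c ∈ B, K b ≠ K c → 2 ≤ (b \ c).card)
    {b c : Finset V} (hb : b ∈ B) (hc : c ∈ B) (hbc : K b ≠ K c)
    {S : Finset (Finset V)} (hS : IsDefining 1 (κ + 1) lam B S) : b ∈ S ∨ c ∈ S := by
  by_contra hcon
  push Not at hcon
  obtain ⟨hbS, hcS⟩ := hcon
  obtain ⟨hB1, hB2⟩ := isDesign_one.mp hB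
  -- a point of the kernel of `b` outside `c`
  have hpt : ∀ b ∈ B, ∀ c ∈ B, K b ≠ K c → ∃ x ∈ K b, x ∉ c := by
    intro b hb c hc hbc
    by_contra hcon
    push Not at hcon
    have h1 : b \ c ⊆ b \ K b := by
      intro z hz
      rw [Finset.mem_sdiff] at hz ⊢
      exact ⟨hz.1, fun h => hz.2 (hcon z h)⟩
    have h2 : (b \ K b).card + (K b).card = b.card :=
      Finset.card_sdiff_add_card_eq_card (hK b hb).1
    have h3 := Finset.card_le_card h1
    have h4 := hfar b hb c hc hbc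
    have h5 := (hK b hb).2
    have h6 := hB1 b hb
    omega
  obtain ⟨x, hxK, hxc⟩ := hpt b hb c hc hbc
  obtain ⟨y, hyK, hyb⟩ := hpt c hc b hb (Ne.symm hbc)
  have hxb : x ∈ b := (hK b hb).1 hxK
  have hyc : y ∈ c := (hK c hc).1 hyK
  have hxy : x ≠ y := fun h => hyb (h ▸ hxb)
  -- the switched blocks are not blocks of `B`
  have hnot : ∀ b ∈ B, ∀ x ∈ K b, ∀ y, y ≠ x → insert y (b.erase x) ∉ B := by
    intro b hb x hx y hyx hmem
    have h1 : K b ≠ K (insert y (b.erase x)) := by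
      intro h
      have h2 : x ∈ insert y (b.erase x) := (hK _ hmem).1 (h ▸ hx)
      rw [Finset.mem_insert, Finset.mem_erase] at h2
      rcases h2 with h2 | h2
      · exact hyx h2.symm
      · exact h2.1 rfl
    have h3 := hfar b hb _ hmem h1
    have h4 : b \ insert y (b.erase x) ⊆ {x} := by
      intro z hz
      rw [Finset.mem_sdiff, Finset.mem_insert, Finset.mem_erase] at hz
      rw [Finset.mem_singleton]
      by_contra hzx
      exact hz.2 (Or.inr ⟨hzx, hz.1⟩)
    have h5 := Finset.card_le_card h4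
    rw [Finset.card_singleton] at h5
    omega
  have hb' : insert y (b.erase x) ∉ B := hnot b hb x hxK y hxy.symm
  have hc' : insert x (c.erase y) ∉ B := hnot c hc y hyK x hxy
  set b' := insert y (b.erase x) with hb'def
  set c' := insert x (c.erase y) with hc'def
  have hbc' : b' ≠ c' := by
    intro h
    have h1 : y ∈ c' := by rw [← h]; exact Finset.mem_insert_self _ _
    rw [hc'def, Finset.mem_insert, Finset.mem_erase] at h1
    rcases h1 with h1 | h1
    · exact hxy h1.symm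
    · exact h1.1 rfl
  have hbc0 : b ≠ c := fun h => hxc (h ▸ hxb)
  set B₀ := (B.erase b).erase c with hB₀
  have hb'0 : b' ∉ insert c' B₀ := by
    rw [Finset.mem_insert, hB₀, Finset.mem_erase, Finset.mem_erase]
    rintro (h | h)
    · exact hbc' h
    · exact hb' h.2.2
  have hc'0 : c' ∉ B₀ := by
    rw [hB₀, Finset.mem_erase, Finset.mem_erase]
    intro h
    exact hc' h.2.2
  have hb0 : b ∉ insert c B₀ := by
    rw [Finset.mem_insert, hB₀, Finset.mem_erase, Finset.mem_erase]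
    rintro (h | h)
    · exact hbc0 h
    · exact h.2.1 rfl
  have hc0 : c ∉ B₀ := by
    rw [hB₀, Finset.mem_erase]
    intro h
    exact h.1 rfl
  have hBeq : B = insert b (insert c B₀) := by
    rw [hB₀, Finset.insert_erase (Finset.mem_erase.mpr ⟨hbc0.symm, hc⟩), Finset.insert_erase hb]
  -- degrees
  have hdegins : ∀ (d : Finset V) (X : Finset (Finset V)) (p : V), d ∉ X →
      ((insert d X).filter (fun b => p ∈ b)).card
        = (if p ∈ d then 1 else 0) + (X.filter (fun b => p ∈ b)).card := by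
    intro d X p hd
    rw [Finset.filter_insert]
    split_ifs with h
    · rw [Finset.card_insert_of_notMem (fun h' => hd (Finset.mem_filter.mp h').1), add_comm]
    · simp
  have hdesign : IsDesign 1 (κ + 1) lam (insert b' (insert c' B₀)) := by
    rw [isDesign_one]
    constructor
    · intro d hd
      rw [Finset.mem_insert, Finset.mem_insert] at hd
      rcases hd with rfl | rfl | hd
      · have h1 : y ∉ b.erase x := fun h => hyb (Finset.mem_erase.mp h).2
        rw [hb'def, Finset.card_insert_of_notMem h1, Finset.card_erase_of_mem hxb, hB1 b hb]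
        rfl
      · have h1 : x ∉ c.erase y := fun h => hxc (Finset.mem_erase.mp h).2
        rw [hc'def, Finset.card_insert_of_notMem h1, Finset.card_erase_of_mem hyc, hB1 c hc]
        rfl
      · exact hB1 d (Finset.mem_erase.mp (Finset.mem_erase.mp hd).2).2
    · intro p
      have e := hB2 p
      rw [hBeq, hdegins b _ p hb0, hdegins c _ p hc0] at e
      rw [hdegins b' _ p hb'0, hdegins c' _ p hc'0]
      have key : (if p ∈ b' then 1 else 0) + (if p ∈ c' then 1 else 0)
          = (if p ∈ b then 1 else 0) + (if p ∈ c then (1 : ℕ) else 0) := by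
        rcases eq_or_ne p x with rfl | hpx
        · have h1 : p ∉ b' := by
            rw [hb'def, Finset.mem_insert, Finset.mem_erase]
            rintro (h | h)
            · exact hxy h
            · exact h.1 rfl
          have h2 : p ∈ c' := Finset.mem_insert_self _ _
          simp [h1, h2, hxb, hxc]
        · rcases eq_or_ne p y with rfl | hpy
          · have h1 : p ∈ b' := Finset.mem_insert_self _ _
            have h2 : p ∉ c' := by
              rw [hc'def, Finset.mem_insert, Finset.mem_erase]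
              rintro (h | h)
              · exact hpx h
              · exact h.1 rfl
            simp [h1, h2, hyb, hyc]
          · have h1 : p ∈ b' ↔ p ∈ b := by
              rw [hb'def, Finset.mem_insert, Finset.mem_erase]
              constructor
              · rintro (h | h)
                · exact absurd h hpy
                · exact h.2
              · intro h
                exact Or.inr ⟨hpx, h⟩
            have h2 : p ∈ c' ↔ p ∈ c := by
              rw [hc'def, Finset.mem_insert, Finset.mem_erase]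
              constructor
              · rintro (h | h)
                · exact absurd h hpx
                · exact h.2
              · intro h
                exact Or.inr ⟨hpy, h⟩
            simp [h1, h2]
      omega
  have hsub : S ⊆ insert b' (insert c' B₀) := by
    intro d hd
    have hdB := hS.1 hd
    rw [Finset.mem_insert, Finset.mem_insert]
    refine Or.inr (Or.inr ?_)
    rw [hB₀, Finset.mem_erase, Finset.mem_erase]
    exact ⟨fun h => hcS (h ▸ hd), fun h => hbS (h ▸ hd), hdB⟩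
  have heq := hS.2 _ hdesign hsub
  exact hb' (heq ▸ Finset.mem_insert_self _ _)

/-- The spectrum of a `1`-design whose blocks fall into cliques with a common kernel. -/
theorem spec_eq {κ lam : ℕ} {B : Finset (Finset V)} (hB : IsDesign 1 (κ + 1) lam B)
    (K : Finset V → Finset V) (hK : ∀ b ∈ B, K b ⊆ b ∧ (K b).card = κ)
    (hfar : ∀ b ∈ B, ∀ c ∈ B, K b ≠ K c → 2 ≤ (b \ c).card) (hne : B.Nonempty) :
    Spec 1 (κ + 1) lam B
      = {n | ∃ b ∈ B, n = (B \ B.filter (fun c => K c = K b)).card} := by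
  have hcl : ∀ b ∈ B, IsDefining 1 (κ + 1) lam B (B \ B.filter (fun c => K c = K b)) := by
    intro b hb
    refine clique_defining hB (Finset.filter_subset _ _) (K b) (hK b hb).2 ?_
    intro c hc
    obtain ⟨hcB, hc⟩ := Finset.mem_filter.mp hc
    rw [← hc]
    exact (hK c hcB).1
  ext n
  constructor
  · rintro ⟨S, ⟨hS, hmin⟩, rfl⟩
    have hex : ∃ b ∈ B, b ∉ S := by
      by_contra hcon
      push Not at hcon
      obtain ⟨b, hb⟩ := hne
      refine hmin _ ?_ (hcl b hb)
      refine (Finset.ssubset_iff_of_subset (Finset.sdiff_subset.trans hcon)).mpr ⟨b, hcon b hb, ?_⟩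
      rw [Finset.mem_sdiff, Finset.mem_filter]
      exact fun h => h.2 ⟨hb, rfl⟩
    obtain ⟨b, hb, hbS⟩ := hex
    refine ⟨b, hb, ?_⟩
    have hsub : B \ B.filter (fun c => K c = K b) ⊆ S := by
      intro c hc
      rw [Finset.mem_sdiff, Finset.mem_filter] at hc
      have hne' : K b ≠ K c := fun h => hc.2 ⟨hc.1, h.symm⟩
      rcases mem_or_mem hB K hK hfar hb hc.1 hne' hS with h | h
      · exact absurd h hbS
      · exact h
    by_contra hcon
    have hss : B \ B.filter (fun c => K c = K b) ⊂ S := by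
      refine lt_of_le_of_ne hsub fun h => hcon (by rw [h])
    exact hmin _ hss (hcl b hb)
  · rintro ⟨b, hb, rfl⟩
    refine ⟨_, ⟨hcl b hb, ?_⟩, rfl⟩
    intro S' hS' hdef
    obtain ⟨c, hc, hcS'⟩ := Finset.exists_of_ssubset hS'
    rw [Finset.mem_sdiff, Finset.mem_filter] at hc
    have hne' : K b ≠ K c := fun h => hc.2 ⟨hc.1, h.symm⟩
    rcases mem_or_mem hB K hK hfar hb hc.1 hne' hdef with h | h
    · have := hS'.1 h
      rw [Finset.mem_sdiff, Finset.mem_filter] at this
      exact this.2 ⟨hb, rfl⟩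
    · exact hcS' h

end Abstract

section Generic

variable {V W : Type} [Fintype V] [DecidableEq V] [Fintype W] [DecidableEq W]

/-- A `1`-design with block size `κ + 1` and a kernel function: blocks with different kernels
meet in at most `κ - 1` points. -/
def Good (κ lam : ℕ) (B : Finset (Finset V)) (K : Finset V → Finset V) : Prop :=
  IsDesign 1 (κ + 1) lam B ∧ (∀ b ∈ B, K b ⊆ b ∧ (K b).card = κ) ∧
    ∀ b ∈ B, ∀ c ∈ B, K b ≠ K c → 2 ≤ (b \ c).card

/-- The disjoint union of two families of blocks. -/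
def sumB (B : Finset (Finset V)) (B' : Finset (Finset W)) : Finset (Finset (V ⊕ W)) :=
  B.image (fun b => b.disjSum ∅) ∪ B'.image (fun b => (∅ : Finset V).disjSum b)

/-- The kernel function of a disjoint union. -/
def sumK (K : Finset V → Finset V) (K' : Finset W → Finset W) (b : Finset (V ⊕ W)) :
    Finset (V ⊕ W) :=
  if b.toRight = ∅ then (K b.toLeft).disjSum ∅ else (∅ : Finset V).disjSum (K' b.toRight)

lemma mem_sumB {B : Finset (Finset V)} {B' : Finset (Finset W)} {d : Finset (V ⊕ W)} :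
    d ∈ sumB B B' ↔ (∃ b ∈ B, d = b.disjSum ∅) ∨ ∃ b ∈ B', d = (∅ : Finset V).disjSum b := by
  unfold sumB
  rw [Finset.mem_union, Finset.mem_image, Finset.mem_image]
  constructor
  · rintro (⟨b, hb, rfl⟩ | ⟨b, hb, rfl⟩)
    · exact Or.inl ⟨b, hb, rfl⟩
    · exact Or.inr ⟨b, hb, rfl⟩
  · rintro (⟨b, hb, rfl⟩ | ⟨b, hb, rfl⟩)
    · exact Or.inl ⟨b, hb, rfl⟩
    · exact Or.inr ⟨b, hb, rfl⟩

lemma left_inj : Function.Injective (fun b : Finset V => b.disjSum (∅ : Finset W)) := by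
  intro b c h
  have h' : (b.disjSum (∅ : Finset W)).toLeft = (c.disjSum (∅ : Finset W)).toLeft :=
    congrArg Finset.toLeft h
  rwa [Finset.toLeft_disjSum, Finset.toLeft_disjSum] at h'

lemma right_inj : Function.Injective (fun b : Finset W => (∅ : Finset V).disjSum b) := by
  intro b c h
  have h' : ((∅ : Finset V).disjSum b).toRight = ((∅ : Finset V).disjSum c).toRight :=
    congrArg Finset.toRight h
  rwa [Finset.toRight_disjSum, Finset.toRight_disjSum] at h'

lemma sumK_left (K : Finset V → Finset V) (K' : Finset W → Finset W) (b : Finset V) :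
    sumK K K' (b.disjSum (∅ : Finset W)) = (K b).disjSum ∅ := by
  unfold sumK
  rw [Finset.toRight_disjSum, if_pos rfl, Finset.toLeft_disjSum]

lemma sumK_right (K : Finset V → Finset V) (K' : Finset W → Finset W) {b : Finset W}
    (hb : b.Nonempty) :
    sumK K K' ((∅ : Finset V).disjSum b) = (∅ : Finset V).disjSum (K' b) := by
  unfold sumK
  rw [Finset.toRight_disjSum, if_neg hb.ne_empty]

lemma isDesign_sum {κ lam : ℕ} {B : Finset (Finset V)} {B' : Finset (Finset W)}
    (hB : IsDesign 1 (κ + 1) lam B) (hB' : IsDesign 1 (κ + 1) lam B') :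
    IsDesign 1 (κ + 1) lam (sumB B B') := by
  rw [isDesign_one] at hB hB' ⊢
  constructor
  · intro d hd
    rcases mem_sumB.mp hd with ⟨b, hb, rfl⟩ | ⟨b, hb, rfl⟩
    · rw [Finset.card_disjSum, hB.1 b hb, Finset.card_empty]
    · rw [Finset.card_disjSum, hB'.1 b hb, Finset.card_empty, zero_add]
  · rintro (p | p)
    · have : (sumB B B').filter (fun d => Sum.inl p ∈ d)
          = (B.filter (fun b => p ∈ b)).image (fun b => b.disjSum (∅ : Finset W)) := by
        ext d
        rw [Finset.mem_filter, mem_sumB, Finset.mem_image]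
        constructor
        · rintro ⟨⟨b, hb, rfl⟩ | ⟨b, hb, rfl⟩, hp⟩
          · exact ⟨b, Finset.mem_filter.mpr ⟨hb, Finset.inl_mem_disjSum.mp hp⟩, rfl⟩
          · exact absurd (Finset.inl_mem_disjSum.mp hp) (Finset.notMem_empty _)
        · rintro ⟨b, hb, rfl⟩
          obtain ⟨hb, hp⟩ := Finset.mem_filter.mp hb
          exact ⟨Or.inl ⟨b, hb, rfl⟩, Finset.inl_mem_disjSum.mpr hp⟩
      rw [this, Finset.card_image_of_injective _ left_inj, hB.2 p]
    · have : (sumB B B').filter (fun d => Sum.inr p ∈ d)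
          = (B'.filter (fun b => p ∈ b)).image (fun b => (∅ : Finset V).disjSum b) := by
        ext d
        rw [Finset.mem_filter, mem_sumB, Finset.mem_image]
        constructor
        · rintro ⟨⟨b, hb, rfl⟩ | ⟨b, hb, rfl⟩, hp⟩
          · exact absurd (Finset.inr_mem_disjSum.mp hp) (Finset.notMem_empty _)
          · exact ⟨b, Finset.mem_filter.mpr ⟨hb, Finset.inr_mem_disjSum.mp hp⟩, rfl⟩
        · rintro ⟨b, hb, rfl⟩
          obtain ⟨hb, hp⟩ := Finset.mem_filter.mp hb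
          exact ⟨Or.inr ⟨b, hb, rfl⟩, Finset.inr_mem_disjSum.mpr hp⟩
      rw [this, Finset.card_image_of_injective _ right_inj, hB'.2 p]

lemma good_sum {κ lam : ℕ} (hκ : 1 ≤ κ) {B : Finset (Finset V)} {B' : Finset (Finset W)}
    {K : Finset V → Finset V} {K' : Finset W → Finset W} (h : Good κ lam B K)
    (h' : Good κ lam B' K') : Good κ lam (sumB B B') (sumK K K') := by
  obtain ⟨hB, hK, hfar⟩ := h
  obtain ⟨hB', hK', hfar'⟩ := h'
  have hne : ∀ b ∈ B', b.Nonempty := by
    intro b hb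
    rw [← Finset.card_pos, hB'.1 b hb]
    omega
  refine ⟨isDesign_sum hB hB', ?_, ?_⟩
  · intro d hd
    rcases mem_sumB.mp hd with ⟨b, hb, rfl⟩ | ⟨b, hb, rfl⟩
    · rw [sumK_left, Finset.card_disjSum, (hK b hb).2, Finset.card_empty]
      exact ⟨Finset.disjSum_mono (hK b hb).1 (Finset.Subset.refl _), rfl⟩
    · rw [sumK_right K K' (hne b hb), Finset.card_disjSum, (hK' b hb).2, Finset.card_empty,
        zero_add]
      exact ⟨Finset.disjSum_mono (Finset.Subset.refl _) (hK' b hb).1, rfl⟩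
  · intro d hd e he hde
    rcases mem_sumB.mp hd with ⟨b, hb, rfl⟩ | ⟨b, hb, rfl⟩ <;>
      rcases mem_sumB.mp he with ⟨c, hc, rfl⟩ | ⟨c, hc, rfl⟩
    · have h1 : b.disjSum (∅ : Finset W) \ c.disjSum (∅ : Finset W)
          = (b \ c).disjSum (∅ : Finset W) := by
        ext (z | z) <;> simp
      rw [h1, Finset.card_disjSum, Finset.card_empty, add_zero]
      refine hfar b hb c hc fun h => hde ?_
      rw [sumK_left, sumK_left, h]
    · have h1 : b.disjSum (∅ : Finset W) \ (∅ : Finset V).disjSum c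
          = b.disjSum (∅ : Finset W) := by
        ext (z | z) <;> simp
      rw [h1, Finset.card_disjSum, hB.1 b hb, Finset.card_empty]
      omega
    · have h1 : (∅ : Finset V).disjSum b \ c.disjSum (∅ : Finset W)
          = (∅ : Finset V).disjSum b := by
        ext (z | z) <;> simp
      rw [h1, Finset.card_disjSum, hB'.1 b hb, Finset.card_empty]
      omega
    · have h1 : (∅ : Finset V).disjSum b \ (∅ : Finset V).disjSum c
          = (∅ : Finset V).disjSum (b \ c) := by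
        ext (z | z) <;> simp
      rw [h1, Finset.card_disjSum, Finset.card_empty, zero_add]
      refine hfar' b hb c hc fun h => hde ?_
      rw [sumK_right K K' (hne b hb), sumK_right K K' (hne c hc), h]

lemma clique_left {κ lam : ℕ} (hκ : 1 ≤ κ) {B : Finset (Finset V)} {B' : Finset (Finset W)}
    {K : Finset V → Finset V} {K' : Finset W → Finset W} (h : Good κ lam B K)
    (h' : Good κ lam B' K') {b : Finset V} (hb : b ∈ B) :
    ((sumB B B').filter (fun d => sumK K K' d = sumK K K' (b.disjSum ∅))).card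
      = (B.filter (fun c => K c = K b)).card := by
  have hne : ∀ b ∈ B', b.Nonempty := by
    intro b hb
    rw [← Finset.card_pos, h'.1.1 b hb]
    omega
  have : (sumB B B').filter (fun d => sumK K K' d = sumK K K' (b.disjSum ∅))
      = (B.filter (fun c => K c = K b)).image (fun b => b.disjSum (∅ : Finset W)) := by
    ext d
    rw [Finset.mem_filter, mem_sumB, Finset.mem_image]
    constructor
    · rintro ⟨⟨c, hc, rfl⟩ | ⟨c, hc, rfl⟩, hp⟩
      · rw [sumK_left, sumK_left] at hp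
        exact ⟨c, Finset.mem_filter.mpr ⟨hc, left_inj hp⟩, rfl⟩
      · rw [sumK_left, sumK_right K K' (hne c hc)] at hp
        exfalso
        have h1 := congrArg Finset.toLeft hp
        have h2 := (h.2.1 b hb).2
        simp only [Finset.toLeft_disjSum] at h1
        rw [← h1, Finset.card_empty] at h2
        omega
    · rintro ⟨c, hc, rfl⟩
      obtain ⟨hc, hp⟩ := Finset.mem_filter.mp hc
      exact ⟨Or.inl ⟨c, hc, rfl⟩, by rw [sumK_left, sumK_left, hp]⟩
  rw [this, Finset.card_image_of_injective _ left_inj]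

lemma clique_right {κ lam : ℕ} (hκ : 1 ≤ κ) {B : Finset (Finset V)} {B' : Finset (Finset W)}
    {K : Finset V → Finset V} {K' : Finset W → Finset W} (h : Good κ lam B K)
    (h' : Good κ lam B' K') {b : Finset W} (hb : b ∈ B') :
    ((sumB B B').filter (fun d => sumK K K' d
        = sumK K K' ((∅ : Finset V).disjSum b))).card
      = (B'.filter (fun c => K' c = K' b)).card := by
  have hne : ∀ b ∈ B', b.Nonempty := by
    intro b hb
    rw [← Finset.card_pos, h'.1.1 b hb]
    omega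
  have : (sumB B B').filter (fun d => sumK K K' d = sumK K K' ((∅ : Finset V).disjSum b))
      = (B'.filter (fun c => K' c = K' b)).image (fun b => (∅ : Finset V).disjSum b) := by
    ext d
    rw [Finset.mem_filter, mem_sumB, Finset.mem_image]
    constructor
    · rintro ⟨⟨c, hc, rfl⟩ | ⟨c, hc, rfl⟩, hp⟩
      · rw [sumK_left, sumK_right K K' (hne b hb)] at hp
        exfalso
        have h1 := congrArg Finset.toLeft hp
        have h2 := (h.2.1 c hc).2
        simp only [Finset.toLeft_disjSum] at h1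
        rw [h1, Finset.card_empty] at h2
        omega
      · rw [sumK_right K K' (hne b hb), sumK_right K K' (hne c hc)] at hp
        exact ⟨c, Finset.mem_filter.mpr ⟨hc, right_inj hp⟩, rfl⟩
    · rintro ⟨c, hc, rfl⟩
      obtain ⟨hc, hp⟩ := Finset.mem_filter.mp hc
      exact ⟨Or.inr ⟨c, hc, rfl⟩, by
        rw [sumK_right K K' (hne b hb), sumK_right K K' (hne c hc), hp]⟩
  rw [this, Finset.card_image_of_injective _ right_inj]

/-- A `1`-design in which two blocks meet in at most one point. -/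
lemma good_of_linear {κ lam : ℕ} (hκ : 2 ≤ κ) {B : Finset (Finset V)}
    (hB : IsDesign 1 (κ + 1) lam B)
    (hlin : ∀ b ∈ B, ∀ c ∈ B, b ≠ c → (b ∩ c).card ≤ 1) :
    ∃ K : Finset V → Finset V, Good κ lam B K ∧
      ∀ b ∈ B, (B.filter (fun c => K c = K b)).card = 1 := by
  classical
  have hex : ∀ b : Finset V, ∃ K : Finset V, b ∈ B → K ⊆ b ∧ K.card = κ := by
    intro b
    by_cases hb : b ∈ B
    · obtain ⟨K, hK1, hK2⟩ := Finset.exists_subset_card_eq
        (show κ ≤ b.card by rw [hB.1 b hb]; omega)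
      exact ⟨K, fun _ => ⟨hK1, hK2⟩⟩
    · exact ⟨∅, fun h => absurd h hb⟩
  choose K hK using hex
  have hinj : ∀ b ∈ B, ∀ c ∈ B, K b = K c → b = c := by
    intro b hb c hc h
    by_contra hne
    have h1 := hlin b hb c hc hne
    have h2 : K b ⊆ b ∩ c := Finset.subset_inter (hK b hb).1 (h ▸ (hK c hc).1)
    have h3 := Finset.card_le_card h2
    rw [(hK b hb).2] at h3
    omega
  refine ⟨K, ⟨hB, hK, ?_⟩, ?_⟩
  · intro b hb c hc hne
    have h1 := hlin b hb c hc (fun h => hne (by rw [h]))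
    have h2 : (b \ c).card + (b ∩ c).card = b.card := Finset.card_sdiff_add_card_inter b c
    rw [hB.1 b hb] at h2
    omega
  · intro b hb
    rw [Finset.card_eq_one]
    refine ⟨b, ?_⟩
    ext c
    rw [Finset.mem_filter, Finset.mem_singleton]
    constructor
    · rintro ⟨hc, h⟩
      exact hinj c hc b hb h
    · rintro rfl
      exact ⟨hb, rfl⟩

/-- The spectrum of a disjoint union. -/
lemma spec_sum {κ lam : ℕ} (hκ : 1 ≤ κ) {B : Finset (Finset V)} {B' : Finset (Finset W)}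
    {K : Finset V → Finset V} {K' : Finset W → Finset W} (h : Good κ lam B K)
    (h' : Good κ lam B' K') {F : Finset ℕ} (h1F : 1 ∈ F)
    (hB1 : ∀ b ∈ B, (B.filter (fun c => K c = K b)).card ∈ F)
    (hB2 : ∀ f ∈ F, ∃ b ∈ B, (B.filter (fun c => K c = K b)).card = f)
    (hB' : ∀ b ∈ B', (B'.filter (fun c => K' c = K' b)).card = 1) :
    Spec 1 (κ + 1) lam (sumB B B') = {n | ∃ f ∈ F, n + f = (sumB B B').card} := by
  obtain ⟨hdes, hK, hfar⟩ := good_sum hκ h h'
  have hmem : ∀ b ∈ B, b.disjSum (∅ : Finset W) ∈ sumB B B' := by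
    intro b hb
    exact mem_sumB.mpr (Or.inl ⟨b, hb, rfl⟩)
  have hne : (sumB B B').Nonempty := by
    obtain ⟨b, hb, _⟩ := hB2 1 h1F
    exact ⟨_, hmem b hb⟩
  have hsz : ∀ d ∈ sumB B B', (sumB B B' \ (sumB B B').filter
      (fun c => sumK K K' c = sumK K K' d)).card
        + ((sumB B B').filter (fun c => sumK K K' c = sumK K K' d)).card
          = (sumB B B').card := by
    intro d _
    exact Finset.card_sdiff_add_card_eq_card (Finset.filter_subset _ _)
  rw [spec_eq hdes (sumK K K') hK hfar hne]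
  ext n
  constructor
  · rintro ⟨d, hd, rfl⟩
    have h2 := hsz d hd
    rcases mem_sumB.mp hd with ⟨b, hb, rfl⟩ | ⟨b, hb, rfl⟩
    · rw [clique_left hκ h h' hb] at h2
      exact ⟨_, hB1 b hb, h2⟩
    · rw [clique_right hκ h h' hb, hB' b hb] at h2
      exact ⟨1, h1F, h2⟩
  · rintro ⟨f, hf, hn⟩
    obtain ⟨b, hb, hbf⟩ := hB2 f hf
    refine ⟨_, hmem b hb, ?_⟩
    have h2 := hsz _ (hmem b hb)
    rw [clique_left hκ h h' hb, hbf] at h2
    omega

end Generic

section Cyclic

lemma pow3 {a b c d : ℕ} (h : 3 ^ a + 3 ^ d = 3 ^ c + 3 ^ b) :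
    (a = c ∧ d = b) ∨ (a = b ∧ d = c) := by
  have key : ∀ a b c d : ℕ, a ≤ d → c ≤ b → 3 ^ a + 3 ^ d = 3 ^ c + 3 ^ b → a = c ∧ d = b := by
    intro a b c d had hcb h
    have h1 : (3 : ℕ) ^ a ≤ 3 ^ d := Nat.pow_le_pow_right (by norm_num) had
    have h2 : (3 : ℕ) ^ c ≤ 3 ^ b := Nat.pow_le_pow_right (by norm_num) hcb
    have p1 : 0 < (3 : ℕ) ^ a := by positivity
    have p2 : 0 < (3 : ℕ) ^ c := by positivity
    have hdb : d = b := by
      rcases lt_trichotomy d b with hlt | heq | hgt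
      · exfalso
        have h3 : (3 : ℕ) ^ (d + 1) ≤ 3 ^ b := Nat.pow_le_pow_right (by norm_num) hlt
        rw [pow_succ] at h3
        omega
      · exact heq
      · exfalso
        have h3 : (3 : ℕ) ^ (b + 1) ≤ 3 ^ d := Nat.pow_le_pow_right (by norm_num) hgt
        rw [pow_succ] at h3
        omega
    subst hdb
    have hac : (3 : ℕ) ^ a = 3 ^ c := by omega
    exact ⟨Nat.pow_right_injective (le_refl 2 |>.trans (by norm_num)) hac, rfl⟩
  rcases le_total a d with h1 | h1 <;> rcases le_total c b with h2 | h2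
  · exact Or.inl (key a b c d h1 h2 h)
  · have := key a c b d h1 h2 (by omega)
    exact Or.inr this
  · have := key d b c a h1 h2 (by omega)
    exact Or.inr ⟨this.2, this.1⟩
  · have := key d c b a h1 h2 (by omega)
    exact Or.inl ⟨this.2, this.1⟩

variable {κ u w lam n : ℕ} [hn : NeZero n]

/-- Translates of pieces of a Golomb ruler, distributed over `w` copies of `ZMod n`. -/
def blk3 (hw : 0 < w) (r : ZMod n × Fin u) : Finset (ZMod n × Fin w) :=
  univ.image (fun t : Fin (κ + 1) => (r.1 + ((3 ^ ((κ + 1) * r.2.1 + t.1) : ℕ) : ZMod n),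
    (⟨((κ + 1) * r.2.1 + t.1) % w, Nat.mod_lt _ hw⟩ : Fin w)))

variable (κ u n) in
/-- The configuration. -/
def CC (hw : 0 < w) : Finset (Finset (ZMod n × Fin w)) :=
  univ.image (fun r : ZMod n × Fin u => blk3 (κ := κ) hw r)

lemma mem_blk3 {hw : 0 < w} {r : ZMod n × Fin u} {p : ZMod n × Fin w} :
    p ∈ blk3 (κ := κ) hw r ↔
      ∃ t : Fin (κ + 1), p.1 = r.1 + ((3 ^ ((κ + 1) * r.2.1 + t.1) : ℕ) : ZMod n) ∧
        p.2.1 = ((κ + 1) * r.2.1 + t.1) % w := by
  unfold blk3
  rw [Finset.mem_image]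
  constructor
  · rintro ⟨t, _, rfl⟩
    exact ⟨t, rfl, rfl⟩
  · rintro ⟨t, h1, h2⟩
    exact ⟨t, Finset.mem_univ _, (Prod.ext h1 (Fin.ext h2)).symm⟩

lemma idx_lt {i : Fin u} {t : Fin (κ + 1)} : (κ + 1) * i.1 + t.1 < (κ + 1) * u := by
  have h1 := i.2
  have h2 := t.2
  have h3 : (κ + 1) * (i.1 + 1) ≤ (κ + 1) * u := Nat.mul_le_mul_left _ h1
  rw [Nat.mul_add] at h3
  omega

lemma idx_div {i : Fin u} {t : Fin (κ + 1)} : ((κ + 1) * i.1 + t.1) / (κ + 1) = i.1 := by
  rw [Nat.mul_add_div (by omega), Nat.div_eq_of_lt t.2, add_zero]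

lemma idx_inj {i i' : Fin u} {t t' : Fin (κ + 1)}
    (h : (κ + 1) * i.1 + t.1 = (κ + 1) * i'.1 + t'.1) : i = i' ∧ t = t' := by
  have e1 := idx_div (i := i) (t := t)
  have e2 := idx_div (i := i') (t := t')
  have e3 : i.1 = i'.1 := by rw [← e1, h, e2]
  refine ⟨Fin.ext e3, Fin.ext ?_⟩
  rw [e3] at h
  omega

lemma pow3_lt {a : ℕ} (ha : a < (κ + 1) * u) (hnu : 3 ^ ((κ + 1) * u) ≤ n) :
    3 * 3 ^ a ≤ n := by
  have : (3 : ℕ) ^ (a + 1) ≤ 3 ^ ((κ + 1) * u) := Nat.pow_le_pow_right (by norm_num) ha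
  rw [pow_succ] at this
  omega

lemma pow_cast_inj (hnu : 3 ^ ((κ + 1) * u) ≤ n) {a b : ℕ} (ha : a < (κ + 1) * u)
    (hb : b < (κ + 1) * u) (h : ((3 ^ a : ℕ) : ZMod n) = ((3 ^ b : ℕ) : ZMod n)) : a = b := by
  have h1 := (ZMod.natCast_eq_natCast_iff' _ _ n).mp h
  have ha' := pow3_lt ha hnu
  have hb' := pow3_lt hb hnu
  have p1 : 0 < (3 : ℕ) ^ a := by positivity
  have p2 : 0 < (3 : ℕ) ^ b := by positivity
  rw [Nat.mod_eq_of_lt (by omega), Nat.mod_eq_of_lt (by omega)] at h1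
  exact Nat.pow_right_injective (by norm_num) h1

lemma blk3_two {hw : 0 < w} (hnu : 3 ^ ((κ + 1) * u) ≤ n) {r r' : ZMod n × Fin u}
    {p p' : ZMod n × Fin w}
    (h1 : p ∈ blk3 (κ := κ) hw r) (h2 : p ∈ blk3 (κ := κ) hw r')
    (h3 : p' ∈ blk3 (κ := κ) hw r) (h4 : p' ∈ blk3 (κ := κ) hw r') (hne : p ≠ p') :
    r = r' := by
  obtain ⟨t1, e1, f1⟩ := mem_blk3.mp h1
  obtain ⟨t2, e2, f2⟩ := mem_blk3.mp h2
  obtain ⟨t3, e3, f3⟩ := mem_blk3.mp h3
  obtain ⟨t4, e4, f4⟩ := mem_blk3.mp h4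
  have l1 := idx_lt (i := r.2) (t := t1)
  have l2 := idx_lt (i := r'.2) (t := t2)
  have l3 := idx_lt (i := r.2) (t := t3)
  have l4 := idx_lt (i := r'.2) (t := t4)
  set a1 := (κ + 1) * r.2.1 + t1.1 with ha1
  set a2 := (κ + 1) * r'.2.1 + t2.1 with ha2
  set a3 := (κ + 1) * r.2.1 + t3.1 with ha3
  set a4 := (κ + 1) * r'.2.1 + t4.1 with ha4
  have m1 := pow3_lt l1 hnu
  have m2 := pow3_lt l2 hnu
  have m3 := pow3_lt l3 hnu
  have m4 := pow3_lt l4 hnu
  have p1 : 0 < (3 : ℕ) ^ a1 := by positivity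
  have p2 : 0 < (3 : ℕ) ^ a2 := by positivity
  have p3 : 0 < (3 : ℕ) ^ a3 := by positivity
  have p4 : 0 < (3 : ℕ) ^ a4 := by positivity
  have h13 : a1 ≠ a3 := by
    intro h
    apply hne
    refine Prod.ext ?_ (Fin.ext ?_)
    · rw [e1, e3, h]
    · rw [f1, f3, h]
  have hz : ((3 ^ a1 + 3 ^ a4 : ℕ) : ZMod n) = ((3 ^ a2 + 3 ^ a3 : ℕ) : ZMod n) := by
    push_cast
    push_cast at e1 e2 e3 e4
    linear_combination e2 - e1 - (e4 - e3)
  have h5 := (ZMod.natCast_eq_natCast_iff' _ _ n).mp hz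
  rw [Nat.mod_eq_of_lt (by omega), Nat.mod_eq_of_lt (by omega)] at h5
  rcases pow3 h5 with ⟨h6, _⟩ | ⟨h6, _⟩
  · obtain ⟨h7, h8⟩ := idx_inj h6
    refine Prod.ext ?_ h7
    rw [h6] at e1
    exact add_right_cancel (e1.symm.trans e2)
  · exact absurd h6 h13

lemma card_blk3 {hw : 0 < w} (hnu : 3 ^ ((κ + 1) * u) ≤ n) (r : ZMod n × Fin u) :
    (blk3 (κ := κ) hw r).card = κ + 1 := by
  unfold blk3
  rw [Finset.card_image_of_injective, Finset.card_univ, Fintype.card_fin]
  intro t t' h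
  have h1 := pow_cast_inj hnu (idx_lt (i := r.2) (t := t)) (idx_lt (i := r.2) (t := t'))
    (add_left_cancel (congrArg Prod.fst h))
  exact (idx_inj h1).2

lemma isDesign_CC (hw : 0 < w) (hκ : 1 ≤ κ) (hnu : 3 ^ ((κ + 1) * u) ≤ n)
    (hlam : (κ + 1) * u = w * lam) : IsDesign 1 (κ + 1) lam (CC κ u n hw) := by
  rw [isDesign_one]
  constructor
  · intro b hb
    obtain ⟨r, _, rfl⟩ := Finset.mem_image.mp hb
    exact card_blk3 hnu r
  · rintro ⟨z, c⟩
    have hlt : ∀ b : Fin lam, w * b.1 + c.1 < (κ + 1) * u := by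
      intro b
      have h1 : w * (b.1 + 1) ≤ w * lam := Nat.mul_le_mul_left _ b.2
      rw [Nat.mul_add] at h1
      have h2 := c.2
      omega
    have hdiv : ∀ b : Fin lam, (w * b.1 + c.1) / (κ + 1) < u := by
      intro b
      rw [Nat.div_lt_iff_lt_mul (by omega), mul_comm u]
      exact hlt b
    have hmod : ∀ b : Fin lam, (κ + 1) * ((w * b.1 + c.1) / (κ + 1))
        + (w * b.1 + c.1) % (κ + 1) = w * b.1 + c.1 := fun b => Nat.div_add_mod _ _
    have : (CC κ u n hw).filter (fun b => (z, c) ∈ b)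
        = (univ : Finset (Fin lam)).image (fun b => blk3 (κ := κ) hw
            ((z - ((3 ^ (w * b.1 + c.1) : ℕ) : ZMod n), ⟨(w * b.1 + c.1) / (κ + 1), hdiv b⟩) :
              ZMod n × Fin u)) := by
      ext b
      rw [Finset.mem_filter, Finset.mem_image]
      constructor
      · rintro ⟨hb, hp⟩
        obtain ⟨⟨x, i⟩, _, rfl⟩ := Finset.mem_image.mp hb
        obtain ⟨t, ht, hc⟩ := mem_blk3.mp hp
        simp only at ht hc
        have ha := idx_lt (i := i) (t := t)
        have hd := idx_div (i := i) (t := t)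
        set a := (κ + 1) * i.1 + t.1 with hadef
        have hb1 : a / w < lam := by
          rw [Nat.div_lt_iff_lt_mul hw, mul_comm lam, ← hlam]
          exact ha
        have hb2 : w * (a / w) + c.1 = a := by
          rw [hc]
          exact Nat.div_add_mod _ _
        refine ⟨⟨a / w, hb1⟩, Finset.mem_univ _, ?_⟩
        congr 1
        refine Prod.ext ?_ (Fin.ext ?_)
        · simp only [hb2]
          rw [ht]
          ring
        · simp only [hb2]
          exact hd
      · rintro ⟨b, _, rfl⟩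
        refine ⟨Finset.mem_image.mpr ⟨_, Finset.mem_univ _, rfl⟩, mem_blk3.mpr
          ⟨⟨(w * b.1 + c.1) % (κ + 1), Nat.mod_lt _ (by omega)⟩, ?_, ?_⟩⟩
        · simp only [hmod b]
          ring
        · simp only [hmod b]
          rw [Nat.mul_add_mod, Nat.mod_eq_of_lt c.2]
    rw [this, Finset.card_image_of_injective, Finset.card_univ, Fintype.card_fin]
    intro b b' h
    simp only at h
    have hc : 1 < (blk3 (κ := κ) hw ((z - ((3 ^ (w * b.1 + c.1) : ℕ) : ZMod n),
        ⟨(w * b.1 + c.1) / (κ + 1), hdiv b⟩) : ZMod n × Fin u)).card := by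
      rw [card_blk3 hnu]
      omega
    obtain ⟨y, hy, y', hy', hyy⟩ := Finset.one_lt_card.mp hc
    have h1 := blk3_two hnu hy (h ▸ hy) hy' (h ▸ hy') hyy
    have h2 := congrArg Prod.fst h1
    simp only at h2
    have h4 := pow_cast_inj hnu (hlt b) (hlt b') (sub_right_injective h2)
    have h5 : w * b.1 = w * b'.1 := by omega
    exact Fin.ext (Nat.eq_of_mul_eq_mul_left hw h5)

lemma linear_CC (hw : 0 < w) (hnu : 3 ^ ((κ + 1) * u) ≤ n) :
    ∀ b ∈ CC κ u n hw, ∀ c ∈ CC κ u n hw, b ≠ c → (b ∩ c).card ≤ 1 := by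
  intro b hb c hc hne
  obtain ⟨r, _, rfl⟩ := Finset.mem_image.mp hb
  obtain ⟨r', _, rfl⟩ := Finset.mem_image.mp hc
  rw [Finset.card_le_one]
  intro p hp p' hp'
  rw [Finset.mem_inter] at hp hp'
  by_contra hpp
  exact hne (by rw [blk3_two hnu hp.1 hp.2 hp'.1 hp'.2 hpp])

end Cyclic

section Construction

/-- Base points: for every `f ∈ F`, `κ` kernel points and `L` further points. -/
abbrev V0 (F : Finset ℕ) (κ L : ℕ) := {f // f ∈ F} × (Fin κ ⊕ Fin (L))

/-- Points: base points times the points of a net. -/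
abbrev Pt (F : Finset ℕ) (κ L q : ℕ) := V0 F κ L × (Fin (κ + 1) × ZMod q)

variable {F : Finset ℕ} {κ L q : ℕ} [hq : Fact q.Prime]

/-- Blocks of the first kind: the kernel of a clique and one further point. -/
def blk1 (a : {f // f ∈ F}) (x : Fin (L)) (y : Fin (κ + 1) × ZMod q) :
    Finset (Pt F κ L q) :=
  insert ((a, Sum.inr x), y) (univ.image (fun i : Fin κ => (((a, Sum.inl i), y) : Pt F κ L q)))

/-- Blocks of the second kind: lines of a net over one base point. -/
def blk2 (v : V0 F κ L) (s : Fin (L)) (b : ZMod q) : Finset (Pt F κ L q) :=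
  univ.image (fun t : Fin (κ + 1) =>
    ((v, (t, ((s : ℕ) : ZMod q) * ((t : ℕ) : ZMod q) + b)) : Pt F κ L q))

/-- The number of blocks of the first kind through a point. -/
def deg0 (v : V0 F κ L) : ℕ :=
  match v.2 with
  | Sum.inl _ => v.1.1
  | Sum.inr x => if x.1 < v.1.1 then 1 else 0

variable (F κ L q) in
/-- All blocks of the first kind. -/
def B1 : Finset (Finset (Pt F κ L q)) :=
  (univ.filter (fun r : ({f // f ∈ F} × Fin (L)) × (Fin (κ + 1) × ZMod q) =>
    r.1.2.1 < r.1.1.1)).image (fun r => blk1 r.1.1 r.1.2 r.2)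

variable (F κ L q) in
/-- All blocks of the second kind. -/
def B2 : Finset (Finset (Pt F κ L q)) :=
  (univ.filter (fun r : (V0 F κ L × Fin (L)) × ZMod q =>
    r.1.2.1 < L - deg0 r.1.1)).image (fun r => blk2 r.1.1 r.1.2 r.2)

lemma mem_B1 {b : Finset (Pt F κ L q)} :
    b ∈ B1 F κ L q ↔ ∃ (a : {f // f ∈ F}) (x : Fin (L)) (y : Fin (κ + 1) × ZMod q),
      x.1 < a.1 ∧ b = blk1 a x y := by
  unfold B1
  rw [Finset.mem_image]
  constructor
  · rintro ⟨⟨⟨a, x⟩, y⟩, h, rfl⟩
    exact ⟨a, x, y, (Finset.mem_filter.mp h).2, rfl⟩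
  · rintro ⟨a, x, y, h, rfl⟩
    exact ⟨((a, x), y), Finset.mem_filter.mpr ⟨Finset.mem_univ _, h⟩, rfl⟩

lemma mem_B2 {b : Finset (Pt F κ L q)} :
    b ∈ B2 F κ L q ↔ ∃ (v : V0 F κ L) (s : Fin (L)) (c : ZMod q),
      s.1 < L - deg0 v ∧ b = blk2 v s c := by
  unfold B2
  rw [Finset.mem_image]
  constructor
  · rintro ⟨⟨⟨v, s⟩, c⟩, h, rfl⟩
    exact ⟨v, s, c, (Finset.mem_filter.mp h).2, rfl⟩
  · rintro ⟨v, s, c, h, rfl⟩
    exact ⟨((v, s), c), Finset.mem_filter.mpr ⟨Finset.mem_univ _, h⟩, rfl⟩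

lemma mem_blk1 {a : {f // f ∈ F}} {x : Fin (L)} {y : Fin (κ + 1) × ZMod q}
    {p : Pt F κ L q} :
    p ∈ blk1 a x y ↔ p = ((a, Sum.inr x), y) ∨ ∃ i : Fin κ, p = ((a, Sum.inl i), y) := by
  unfold blk1
  rw [Finset.mem_insert, Finset.mem_image]
  constructor
  · rintro (h | ⟨i, _, h⟩)
    · exact Or.inl h
    · exact Or.inr ⟨i, h.symm⟩
  · rintro (h | ⟨i, h⟩)
    · exact Or.inl h
    · exact Or.inr ⟨i, Finset.mem_univ _, h.symm⟩

lemma mem_blk2 {v : V0 F κ L} {s : Fin (L)} {c : ZMod q} {p : Pt F κ L q} :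
    p ∈ blk2 v s c ↔ p.1 = v ∧ p.2.2 = ((s : ℕ) : ZMod q) * ((p.2.1 : ℕ) : ZMod q) + c := by
  unfold blk2
  rw [Finset.mem_image]
  constructor
  · rintro ⟨t, _, rfl⟩
    exact ⟨rfl, rfl⟩
  · rintro ⟨h1, h2⟩
    obtain ⟨v', t, w⟩ := p
    simp only at h1 h2
    exact ⟨t, Finset.mem_univ _, by rw [← h2, h1]⟩

lemma fst_of_mem_blk1 {a : {f // f ∈ F}} {x : Fin (L)} {y : Fin (κ + 1) × ZMod q}
    {p : Pt F κ L q} (h : p ∈ blk1 a x y) : p.1.1 = a ∧ p.2 = y := by
  rcases mem_blk1.mp h with rfl | ⟨i, rfl⟩ <;> exact ⟨rfl, rfl⟩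

lemma card_blk1 (a : {f // f ∈ F}) (x : Fin (L)) (y : Fin (κ + 1) × ZMod q) :
    (blk1 a x y : Finset (Pt F κ L q)).card = κ + 1 := by
  unfold blk1
  rw [Finset.card_insert_of_notMem, Finset.card_image_of_injective, Finset.card_univ,
    Fintype.card_fin]
  · intro i j h
    simpa using h
  · simp

lemma card_blk2 (v : V0 F κ L) (s : Fin (L)) (c : ZMod q) :
    (blk2 v s c : Finset (Pt F κ L q)).card = κ + 1 := by
  unfold blk2
  rw [Finset.card_image_of_injective, Finset.card_univ, Fintype.card_fin]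
  intro i j h
  simp only [Prod.mk.injEq, true_and] at h
  exact h.1

lemma cast_inj {m n : ℕ} (hm : m < q) (hn : n < q) (h : (m : ZMod q) = (n : ZMod q)) :
    m = n := by
  have h1 := (ZMod.natCast_eq_natCast_iff' m n q).mp h
  rwa [Nat.mod_eq_of_lt hm, Nat.mod_eq_of_lt hn] at h1

lemma blk2_two (hκ : κ + 1 ≤ q) (hL : L ≤ q) {v v' : V0 F κ L} {s s' : Fin (L)}
    {c c' : ZMod q} {p p' : Pt F κ L q} (h1 : p ∈ blk2 v s c) (h2 : p ∈ blk2 v' s' c')
    (h3 : p' ∈ blk2 v s c) (h4 : p' ∈ blk2 v' s' c') (hne : p ≠ p') :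
    v = v' ∧ s = s' ∧ c = c' := by
  rw [mem_blk2] at h1 h2 h3 h4
  have hv : v = v' := h1.1.symm.trans h2.1
  have ht : ((p.2.1 : ℕ) : ZMod q) ≠ ((p'.2.1 : ℕ) : ZMod q) := by
    intro h
    have h5 : (p.2.1 : ℕ) = (p'.2.1 : ℕ) :=
      cast_inj (lt_of_lt_of_le p.2.1.2 hκ) (lt_of_lt_of_le p'.2.1.2 hκ) h
    apply hne
    refine Prod.ext (h1.1.trans h3.1.symm) (Prod.ext (Fin.ext h5) ?_)
    rw [h1.2, h3.2, h]
  have hs : ((s : ℕ) : ZMod q) = ((s' : ℕ) : ZMod q) := by
    have e : (((s : ℕ) : ZMod q) - ((s' : ℕ) : ZMod q))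
        * (((p.2.1 : ℕ) : ZMod q) - ((p'.2.1 : ℕ) : ZMod q)) = 0 := by
      linear_combination h2.2 - h1.2 - (h4.2 - h3.2)
    rcases mul_eq_zero.mp e with e | e
    · exact sub_eq_zero.mp e
    · exact absurd (sub_eq_zero.mp e) ht
  refine ⟨hv, Fin.ext (cast_inj (lt_of_lt_of_le s.2 hL) (lt_of_lt_of_le s'.2 hL) hs), ?_⟩
  linear_combination h2.2 - h1.2 - hs * ((p.2.1 : ℕ) : ZMod q)

lemma disjoint_B1_B2 (hκ : 1 ≤ κ) : Disjoint (B1 F κ L q) (B2 F κ L q) := by
  rw [Finset.disjoint_left]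
  intro b h1 h2
  obtain ⟨a, x, y, _, rfl⟩ := mem_B1.mp h1
  obtain ⟨v, s, c, _, h⟩ := mem_B2.mp h2
  have e1 : (((a, Sum.inr x), y) : Pt F κ L q) ∈ blk2 v s c := by
    rw [← h]; exact mem_blk1.mpr (Or.inl rfl)
  have e2 : (((a, Sum.inl ⟨0, hκ⟩), y) : Pt F κ L q) ∈ blk2 v s c := by
    rw [← h]; exact mem_blk1.mpr (Or.inr ⟨_, rfl⟩)
  have e3 := (mem_blk2.mp e1).1.trans (mem_blk2.mp e2).1.symm
  simp at e3

lemma card_fin_lt {n m : ℕ} (h : m ≤ n) :
    (univ.filter (fun x : Fin n => x.1 < m)).card = m := by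
  have : (univ.filter (fun x : Fin n => x.1 < m)).map Fin.valEmbedding = Finset.range m := by
    ext z
    simp only [Finset.mem_map, Finset.mem_filter, Finset.mem_univ, true_and,
      Fin.valEmbedding_apply, Finset.mem_range]
    constructor
    · rintro ⟨x, hx, rfl⟩
      exact hx
    · intro hz
      exact ⟨⟨z, lt_of_lt_of_le hz h⟩, hz, rfl⟩
  rw [← Finset.card_map Fin.valEmbedding, this, Finset.card_range]

lemma blk1_inj (a : {f // f ∈ F}) (y : Fin (κ + 1) × ZMod q) :
    Function.Injective (fun x : Fin (L) => (blk1 a x y : Finset (Pt F κ L q))) := by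
  intro x x' h
  have e : (((a, Sum.inr x), y) : Pt F κ L q) ∈ blk1 a x' y := by
    have h' : (blk1 a x y : Finset (Pt F κ L q)) = blk1 a x' y := h
    rw [← h']; exact mem_blk1.mpr (Or.inl rfl)
  rcases mem_blk1.mp e with e | ⟨i, e⟩
  · simpa using e
  · simp at e

variable (L) in
/-- The blocks of one clique. -/
def clq (a : {f // f ∈ F}) (y : Fin (κ + 1) × ZMod q) : Finset (Finset (Pt F κ L q)) :=
  (univ.filter (fun x : Fin (L) => x.1 < a.1)).image (fun x => blk1 a x y)

lemma card_clq (hF : ∀ f ∈ F, f ≤ L) (a : {f // f ∈ F}) (y : Fin (κ + 1) × ZMod q) :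
    (clq L a y).card = a.1 := by
  unfold clq
  rw [Finset.card_image_of_injective _ (blk1_inj a y), card_fin_lt (hF a.1 a.2)]

lemma mem_clq {a : {f // f ∈ F}} {y : Fin (κ + 1) × ZMod q} {b : Finset (Pt F κ L q)} :
    b ∈ clq L a y ↔ ∃ x : Fin (L), x.1 < a.1 ∧ b = blk1 a x y := by
  unfold clq
  rw [Finset.mem_image]
  constructor
  · rintro ⟨x, h, rfl⟩
    exact ⟨x, (Finset.mem_filter.mp h).2, rfl⟩
  · rintro ⟨x, h, rfl⟩
    exact ⟨x, Finset.mem_filter.mpr ⟨Finset.mem_univ _, h⟩, rfl⟩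

lemma deg_B1 (hF : ∀ f ∈ F, f ≤ L) (p : Pt F κ L q) :
    ((B1 F κ L q).filter (fun b => p ∈ b)).card = deg0 p.1 := by
  obtain ⟨⟨a, i | x⟩, y⟩ := p
  · have : (B1 F κ L q).filter (fun b => (((a, Sum.inl i), y) : Pt F κ L q) ∈ b)
        = clq L a y := by
      ext b
      rw [Finset.mem_filter, mem_B1, mem_clq]
      constructor
      · rintro ⟨⟨a', x, y', hx, rfl⟩, hp⟩
        obtain ⟨h1, h2⟩ := fst_of_mem_blk1 hp
        simp only at h1 h2
        subst h1 h2
        exact ⟨x, hx, rfl⟩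
      · rintro ⟨x, hx, rfl⟩
        exact ⟨⟨a, x, y, hx, rfl⟩, mem_blk1.mpr (Or.inr ⟨i, rfl⟩)⟩
    rw [this, card_clq hF]
    rfl
  · have hd : deg0 (F := F) (κ := κ) (L := L) (a, Sum.inr x)
        = if x.1 < a.1 then 1 else 0 := rfl
    show _ = deg0 (F := F) (κ := κ) (L := L) (a, Sum.inr x)
    rw [hd]
    split_ifs with hx
    · rw [Finset.card_eq_one]
      refine ⟨blk1 a x y, ?_⟩
      ext b
      rw [Finset.mem_filter, mem_B1, Finset.mem_singleton]
      constructor
      · rintro ⟨⟨a', x', y', hx', rfl⟩, hp⟩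
        rcases mem_blk1.mp hp with h | ⟨i, h⟩
        · simp only [Prod.mk.injEq, Sum.inr.injEq] at h
          obtain ⟨⟨rfl, rfl⟩, rfl⟩ := h
          rfl
        · simp at h
      · rintro rfl
        exact ⟨⟨a, x, y, hx, rfl⟩, mem_blk1.mpr (Or.inl rfl)⟩
    · rw [Finset.card_eq_zero, Finset.filter_eq_empty_iff]
      intro b hb hp
      obtain ⟨a', x', y', hx', rfl⟩ := mem_B1.mp hb
      rcases mem_blk1.mp hp with h | ⟨i, h⟩
      · simp only [Prod.mk.injEq, Sum.inr.injEq] at h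
        obtain ⟨⟨rfl, rfl⟩, rfl⟩ := h
        exact hx hx'
      · simp at h

lemma deg_B2 (hκ0 : 1 ≤ κ) (hκ : κ + 1 ≤ q) (hL : L ≤ q) (p : Pt F κ L q) :
    ((B2 F κ L q).filter (fun b => p ∈ b)).card = L - deg0 p.1 := by
  have : (B2 F κ L q).filter (fun b => p ∈ b)
      = (univ.filter (fun s : Fin (L) => s.1 < L - deg0 p.1)).image
        (fun s => blk2 p.1 s (p.2.2 - ((s : ℕ) : ZMod q) * ((p.2.1 : ℕ) : ZMod q))) := by
    ext b
    rw [Finset.mem_filter, mem_B2, Finset.mem_image]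
    constructor
    · rintro ⟨⟨v, s, c, hs, rfl⟩, hp⟩
      obtain ⟨h1, h2⟩ := mem_blk2.mp hp
      subst h1
      refine ⟨s, Finset.mem_filter.mpr ⟨Finset.mem_univ _, hs⟩, ?_⟩
      congr 1
      rw [h2]
      ring
    · rintro ⟨s, hs, rfl⟩
      refine ⟨⟨p.1, s, _, (Finset.mem_filter.mp hs).2, rfl⟩, mem_blk2.mpr ⟨rfl, ?_⟩⟩
      ring
  rw [this, Finset.card_image_of_injective, card_fin_lt (by omega)]
  intro s s' h
  have h' : (blk2 p.1 s (p.2.2 - ((s : ℕ) : ZMod q) * ((p.2.1 : ℕ) : ZMod q)) :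
      Finset (Pt F κ L q)) = blk2 p.1 s' (p.2.2 - ((s' : ℕ) : ZMod q) * ((p.2.1 : ℕ) : ZMod q)) := h
  have hc : 1 < (blk2 p.1 s (p.2.2 - ((s : ℕ) : ZMod q) * ((p.2.1 : ℕ) : ZMod q)) :
      Finset (Pt F κ L q)).card := by
    rw [card_blk2]
    omega
  obtain ⟨z, hz, z', hz', hzz⟩ := Finset.one_lt_card.mp hc
  exact (blk2_two hκ hL hz (h' ▸ hz) hz' (h' ▸ hz') hzz).2.1

lemma deg0_le (hF : ∀ f ∈ F, f ≤ L) (v : V0 F κ L) : deg0 v ≤ L := by
  obtain ⟨a, i | x⟩ := v
  · exact hF a.1 a.2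
  · have hd : deg0 (F := F) (κ := κ) (L := L) (a, Sum.inr x) = if x.1 < a.1 then 1 else 0 := rfl
    rw [hd]
    have := x.2
    split_ifs <;> omega

variable (F κ L q) in
/-- The design. -/
def BB : Finset (Finset (Pt F κ L q)) := B1 F κ L q ∪ B2 F κ L q

lemma isDesign_BB (hF : ∀ f ∈ F, f ≤ L) (hκ0 : 1 ≤ κ) (hκ : κ + 1 ≤ q) (hL : L ≤ q) :
    IsDesign 1 (κ + 1) (L) (BB F κ L q) := by
  rw [isDesign_one]
  constructor
  · intro b hb
    rcases Finset.mem_union.mp hb with hb | hb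
    · obtain ⟨a, x, y, _, rfl⟩ := mem_B1.mp hb
      exact card_blk1 a x y
    · obtain ⟨v, s, c, _, rfl⟩ := mem_B2.mp hb
      exact card_blk2 v s c
  · intro p
    unfold BB
    rw [Finset.filter_union, Finset.card_union_of_disjoint
      (Finset.disjoint_filter_filter (disjoint_B1_B2 hκ0)), deg_B1 hF, deg_B2 hκ0 hκ hL]
    have := deg0_le (F := F) (κ := κ) (L := L) hF p.1
    omega

variable (F κ L q) in
/-- The kernel of a block. -/
def Ker (b : Finset (Pt F κ L q)) : Finset (Pt F κ L q) :=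
  if b ∈ B1 F κ L q then b.filter (fun p => p.1.2.isLeft = true)
  else b.filter (fun p => p.2.1 ≠ 0)

lemma Ker_subset (b : Finset (Pt F κ L q)) : Ker F κ L q b ⊆ b := by
  unfold Ker
  split_ifs <;> exact Finset.filter_subset _ _

lemma Ker_blk1 {a : {f // f ∈ F}} {x : Fin (L)} {y : Fin (κ + 1) × ZMod q}
    (h : x.1 < a.1) :
    Ker F κ L q (blk1 a x y)
      = univ.image (fun i : Fin κ => (((a, Sum.inl i), y) : Pt F κ L q)) := by
  have hb : blk1 a x y ∈ B1 F κ L q := mem_B1.mpr ⟨a, x, y, h, rfl⟩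
  unfold Ker
  rw [if_pos hb]
  ext p
  rw [Finset.mem_filter, mem_blk1, Finset.mem_image]
  constructor
  · rintro ⟨rfl | ⟨i, rfl⟩, h⟩
    · simp at h
    · exact ⟨i, Finset.mem_univ _, rfl⟩
  · rintro ⟨i, _, rfl⟩
    exact ⟨Or.inr ⟨i, rfl⟩, rfl⟩

lemma Ker_blk2 (hκ0 : 1 ≤ κ) {v : V0 F κ L} {s : Fin (L)} {c : ZMod q}
    (h : s.1 < L - deg0 v) :
    Ker F κ L q (blk2 v s c) = (blk2 v s c).filter (fun p => p.2.1 ≠ 0) := by
  have hb : blk2 v s c ∉ B1 F κ L q := by
    intro hb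
    exact Finset.disjoint_left.mp (disjoint_B1_B2 hκ0) hb (mem_B2.mpr ⟨v, s, c, h, rfl⟩)
  unfold Ker
  rw [if_neg hb]

lemma mem_Ker_blk2 (hκ0 : 1 ≤ κ) {v : V0 F κ L} {s : Fin (L)} {c : ZMod q}
    (h : s.1 < L - deg0 v) (t : Fin (κ + 1)) (ht : t ≠ 0) :
    ((v, (t, ((s : ℕ) : ZMod q) * ((t : ℕ) : ZMod q) + c)) : Pt F κ L q)
      ∈ Ker F κ L q (blk2 v s c) := by
  rw [Ker_blk2 hκ0 h, Finset.mem_filter, mem_blk2]
  exact ⟨⟨rfl, rfl⟩, ht⟩

lemma card_Ker (hκ0 : 1 ≤ κ) {b : Finset (Pt F κ L q)} (hb : b ∈ BB F κ L q) :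
    (Ker F κ L q b).card = κ := by
  rcases Finset.mem_union.mp hb with hb | hb
  · obtain ⟨a, x, y, hx, rfl⟩ := mem_B1.mp hb
    rw [Ker_blk1 hx, Finset.card_image_of_injective, Finset.card_univ, Fintype.card_fin]
    intro i j h
    simpa using h
  · obtain ⟨v, s, c, hs, rfl⟩ := mem_B2.mp hb
    rw [Ker_blk2 hκ0 hs]
    have h1 : (blk2 v s c).filter (fun p : Pt F κ L q => p.2.1 ≠ 0)
        = (blk2 v s c).erase ((v, (0, c)) : Pt F κ L q) := by
      ext p
      rw [Finset.mem_filter, Finset.mem_erase]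
      constructor
      · rintro ⟨h1, h2⟩
        refine ⟨fun h => h2 (by rw [h]), h1⟩
      · rintro ⟨h1, h2⟩
        refine ⟨h2, fun h => h1 ?_⟩
        obtain ⟨h3, h4⟩ := mem_blk2.mp h2
        refine Prod.ext h3 (Prod.ext h ?_)
        rw [h4, h]
        simp
    rw [h1, Finset.card_erase_of_mem, card_blk2]
    · rfl
    · rw [mem_blk2]
      refine ⟨rfl, ?_⟩
      simp

/-- Two blocks, not both of the first kind in the same clique, meet in at most one point. -/
lemma far (hF : ∀ f ∈ F, f ≤ L) (hκ0 : 2 ≤ κ) (hκ : κ + 1 ≤ q) (hL : L ≤ q) :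
    ∀ b ∈ BB F κ L q, ∀ c ∈ BB F κ L q, Ker F κ L q b ≠ Ker F κ L q c →
      2 ≤ (b \ c).card := by
  intro b hb c hc hne
  have hbc : b.card = κ + 1 := (isDesign_BB hF (by omega) hκ hL).1 b hb
  have key : (b ∩ c).card ≤ 1 := by
    rw [Finset.card_le_one]
    intro p hp p' hp'
    rw [Finset.mem_inter] at hp hp'
    by_contra hpp
    apply hne
    rcases Finset.mem_union.mp hb with hb | hb <;> rcases Finset.mem_union.mp hc with hc | hc
    · obtain ⟨a, x, y, hx, rfl⟩ := mem_B1.mp hb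
      obtain ⟨a', x', y', hx', rfl⟩ := mem_B1.mp hc
      have h1 := fst_of_mem_blk1 hp.1
      have h2 := fst_of_mem_blk1 hp.2
      have ha : a = a' := h1.1.symm.trans h2.1
      have hy : y = y' := h1.2.symm.trans h2.2
      subst ha hy
      rw [Ker_blk1 hx, Ker_blk1 hx']
    · obtain ⟨a, x, y, hx, rfl⟩ := mem_B1.mp hb
      obtain ⟨v, s, c, hs, rfl⟩ := mem_B2.mp hc
      exfalso
      apply hpp
      exact Prod.ext ((mem_blk2.mp hp.2).1.trans (mem_blk2.mp hp'.2).1.symm)
        ((fst_of_mem_blk1 hp.1).2.trans (fst_of_mem_blk1 hp'.1).2.symm)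
    · obtain ⟨a, x, y, hx, rfl⟩ := mem_B1.mp hc
      obtain ⟨v, s, c, hs, rfl⟩ := mem_B2.mp hb
      exfalso
      apply hpp
      exact Prod.ext ((mem_blk2.mp hp.1).1.trans (mem_blk2.mp hp'.1).1.symm)
        ((fst_of_mem_blk1 hp.2).2.trans (fst_of_mem_blk1 hp'.2).2.symm)
    · obtain ⟨v, s, c, hs, rfl⟩ := mem_B2.mp hb
      obtain ⟨v', s', c', hs', rfl⟩ := mem_B2.mp hc
      obtain ⟨rfl, rfl, rfl⟩ := blk2_two hκ hL hp.1 hp.2 hp'.1 hp'.2 hpp
      rfl
  have h1 : (b \ c).card + (b ∩ c).card = b.card := Finset.card_sdiff_add_card_inter b c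
  omega

/-- Kernels of blocks of different kinds are different. -/
lemma Ker_ne (hκ0 : 2 ≤ κ) {a : {f // f ∈ F}} {x : Fin (L)}
    {y : Fin (κ + 1) × ZMod q} (hx : x.1 < a.1) {v : V0 F κ L} {s : Fin (L)}
    {c : ZMod q} (hs : s.1 < L - deg0 v) :
    Ker F κ L q (blk1 a x y) ≠ Ker F κ L q (blk2 v s c) := by
  intro h
  have h1 := mem_Ker_blk2 (F := F) (q := q) (c := c) (by omega : 1 ≤ κ) hs
    (⟨1, by omega⟩ : Fin (κ + 1)) (by intro h; simp [Fin.ext_iff] at h)
  have h2 := mem_Ker_blk2 (F := F) (q := q) (c := c) (by omega : 1 ≤ κ) hs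
    (⟨2, by omega⟩ : Fin (κ + 1)) (by intro h; simp [Fin.ext_iff] at h)
  rw [← h] at h1 h2
  have e1 := (fst_of_mem_blk1 (Ker_subset _ h1)).2
  have e2 := (fst_of_mem_blk1 (Ker_subset _ h2)).2
  have e3 := congrArg Prod.fst (e1.trans e2.symm)
  simp [Fin.ext_iff] at e3

lemma clique_blk1 (hκ0 : 2 ≤ κ) {a : {f // f ∈ F}} {x : Fin (L)}
    {y : Fin (κ + 1) × ZMod q} (hx : x.1 < a.1) :
    (BB F κ L q).filter (fun c => Ker F κ L q c = Ker F κ L q (blk1 a x y)) = clq L a y := by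
  ext b
  rw [Finset.mem_filter, mem_clq]
  constructor
  · rintro ⟨hb, hK⟩
    rcases Finset.mem_union.mp hb with hb | hb
    · obtain ⟨a', x', y', hx', rfl⟩ := mem_B1.mp hb
      rw [Ker_blk1 hx, Ker_blk1 hx'] at hK
      have h1 : (((a', Sum.inl ⟨0, by omega⟩), y') : Pt F κ L q)
          ∈ univ.image (fun i : Fin κ => (((a', Sum.inl i), y') : Pt F κ L q)) :=
        Finset.mem_image.mpr ⟨_, Finset.mem_univ _, rfl⟩
      rw [hK] at h1
      obtain ⟨i, _, h1⟩ := Finset.mem_image.mp h1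
      simp only [Prod.mk.injEq, Sum.inl.injEq] at h1
      obtain ⟨⟨rfl, _⟩, rfl⟩ := h1
      exact ⟨x', hx', rfl⟩
    · obtain ⟨v, s, c, hs, rfl⟩ := mem_B2.mp hb
      exact absurd hK.symm (Ker_ne hκ0 hx hs)
  · rintro ⟨x', hx', rfl⟩
    refine ⟨Finset.mem_union_left _ (mem_B1.mpr ⟨a, x', y, hx', rfl⟩), ?_⟩
    rw [Ker_blk1 hx, Ker_blk1 hx']

lemma clique_blk2 (hκ0 : 2 ≤ κ) (hκ : κ + 1 ≤ q) (hL : L ≤ q) {v : V0 F κ L}
    {s : Fin (L)} {c : ZMod q} (hs : s.1 < L - deg0 v) :
    (BB F κ L q).filter (fun d => Ker F κ L q d = Ker F κ L q (blk2 v s c))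
      = {blk2 v s c} := by
  ext b
  rw [Finset.mem_filter, Finset.mem_singleton]
  constructor
  · rintro ⟨hb, hK⟩
    rcases Finset.mem_union.mp hb with hb | hb
    · obtain ⟨a', x', y', hx', rfl⟩ := mem_B1.mp hb
      exact absurd hK (Ker_ne hκ0 hx' hs)
    · obtain ⟨v', s', c', hs', rfl⟩ := mem_B2.mp hb
      have h1 := mem_Ker_blk2 (F := F) (q := q) (c := c) (by omega : 1 ≤ κ) hs
        (⟨1, by omega⟩ : Fin (κ + 1)) (by intro h; simp [Fin.ext_iff] at h)
      have h2 := mem_Ker_blk2 (F := F) (q := q) (c := c) (by omega : 1 ≤ κ) hs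
        (⟨2, by omega⟩ : Fin (κ + 1)) (by intro h; simp [Fin.ext_iff] at h)
      have h3 := Ker_subset _ h1
      have h4 := Ker_subset _ h2
      rw [← hK] at h1 h2
      have h5 := Ker_subset _ h1
      have h6 := Ker_subset _ h2
      obtain ⟨rfl, rfl, rfl⟩ := blk2_two hκ hL h5 h3 h6 h4 (by
        intro h
        have e3 := congrArg (fun p : Pt F κ L q => p.2.1) h
        simp [Fin.ext_iff] at e3)
      rfl
  · rintro rfl
    exact ⟨Finset.mem_union_right _ (mem_B2.mpr ⟨v, s, c, hs, rfl⟩), rfl⟩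


lemma good_BB (hF : ∀ f ∈ F, f ≤ L) (hκ0 : 2 ≤ κ) (hκ : κ + 1 ≤ q) (hL : L ≤ q) :
    Good κ L (BB F κ L q) (Ker F κ L q) :=
  ⟨isDesign_BB hF (by omega) hκ hL, fun b hb => ⟨Ker_subset b, card_Ker (by omega) hb⟩,
    far hF hκ0 hκ hL⟩

end Construction

/-- **Result.** Let `k ≥ 3` and `lam ≥ 1`. For all sufficiently large `v` with `k ∣ v * lam`
and every set `F ⊆ {1, ..., lam}` containing `1` there is a simple `1`-`(v,k,lam)` design,
with `v * lam / k` blocks, whose minimal defining sets have exactly the sizes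
`v * lam / k - f` with `f ∈ F`. -/
theorem result :
    ∀ k lam : ℕ, 3 ≤ k → 1 ≤ lam → ∃ v₀ : ℕ, ∀ v : ℕ, v₀ ≤ v → k ∣ v * lam →
      ∀ F : Finset ℕ, 1 ∈ F → (∀ f ∈ F, 1 ≤ f ∧ f ≤ lam) →
        ∃ (V : Type) (_ : Fintype V) (_ : DecidableEq V) (B : Finset (Finset V)),
          Fintype.card V = v ∧ k ≤ v ∧ IsDesign 1 k lam B ∧
            Spec 1 k lam B = {n | ∃ f ∈ F, n + f = v * lam / k} := by
  intro k L hk hL1
  obtain ⟨κ, rfl⟩ : ∃ κ, k = κ + 1 := ⟨k - 1, by omega⟩
  have hκ0 : 2 ≤ κ := by omega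
  obtain ⟨q, hq1, hq2⟩ := Nat.exists_infinite_primes (κ + 1 + L)
  haveI : Fact q.Prime := ⟨hq2⟩
  have hκ : κ + 1 ≤ q := by omega
  have hL : L ≤ q := by omega
  -- the least common multiple structure
  obtain ⟨g, u, w, hg, hcop, hk', hL'⟩ : ∃ g u w : ℕ, 0 < g ∧ Nat.Coprime w u ∧
      κ + 1 = w * g ∧ L = u * g := by
    have hg : 0 < Nat.gcd (κ + 1) L := Nat.gcd_pos_of_pos_left _ (by omega)
    exact ⟨Nat.gcd (κ + 1) L, L / Nat.gcd (κ + 1) L, (κ + 1) / Nat.gcd (κ + 1) L, hg,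
      Nat.coprime_div_gcd_div_gcd hg, (Nat.div_mul_cancel (Nat.gcd_dvd_left _ _)).symm,
      (Nat.div_mul_cancel (Nat.gcd_dvd_right _ _)).symm⟩
  have hw : 0 < w := by
    rcases Nat.eq_zero_or_pos w with h | h
    · rw [h] at hk'
      omega
    · exact h
  have hlam : (κ + 1) * u = w * L := by rw [hk', hL']; ring
  obtain ⟨N, hN⟩ : ∃ N, N = L * (κ + L) * ((κ + 1) * q) := ⟨_, rfl⟩
  obtain ⟨M, hM⟩ : ∃ M, M = 3 ^ ((κ + 1) * u) := ⟨_, rfl⟩
  have hMpos : 0 < M := by rw [hM]; positivity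
  refine ⟨N + w * M, fun v hv hdvd F h1F hF => ?_⟩
  have hF' : ∀ f ∈ F, f ≤ L := fun f hf => (hF f hf).2
  have hcardF : F.card ≤ L := by
    have hsub : F ⊆ Finset.Icc 1 L := fun f hf => Finset.mem_Icc.mpr (hF f hf)
    have := Finset.card_le_card hsub
    rwa [Nat.card_Icc, Nat.add_sub_cancel] at this
  have hcardP : Fintype.card (Pt F κ L q) = F.card * (κ + L) * ((κ + 1) * q) := by
    simp [Pt, V0, Fintype.card_prod, Fintype.card_sum, ZMod.card]
  have hcardP' : Fintype.card (Pt F κ L q) ≤ N := by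
    rw [hcardP, hN]
    exact Nat.mul_le_mul_right _ (Nat.mul_le_mul_right _ hcardF)
  -- divisibility
  have hwv : w ∣ v := by
    have h1 : w * g ∣ (v * u) * g := by
      rw [hk', hL'] at hdvd
      rwa [← mul_assoc] at hdvd
    exact hcop.dvd_of_dvd_mul_right (Nat.dvd_of_mul_dvd_mul_right hg h1)
  have hwP : w ∣ Fintype.card (Pt F κ L q) := by
    rw [hcardP, hk']
    exact Dvd.dvd.mul_left (Dvd.dvd.mul_right (Dvd.intro _ rfl) _) _
  obtain ⟨n, hn⟩ : ∃ n, v = Fintype.card (Pt F κ L q) + w * n := by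
    obtain ⟨n, hn⟩ := Nat.dvd_sub hwv hwP
    exact ⟨n, by omega⟩
  have hnM : M ≤ n := by
    have h1 : w * M ≤ w * n := by omega
    exact Nat.le_of_mul_le_mul_left h1 hw
  have hnu : 3 ^ ((κ + 1) * u) ≤ n := by rw [← hM]; exact hnM
  haveI : NeZero n := ⟨by omega⟩
  have hgB := good_BB (F := F) (κ := κ) (L := L) (q := q) hF' hκ0 hκ hL
  obtain ⟨K', hgC, hK'⟩ := good_of_linear hκ0 (isDesign_CC (κ := κ) (u := u) (n := n)
    hw (by omega) hnu hlam) (linear_CC hw hnu)
  have hdes := (good_sum (by omega : 1 ≤ κ) hgB hgC).1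
  let y₀ : Fin (κ + 1) × ZMod q := (0, 0)
  have hb₀ : ∀ f (hf : f ∈ F), (blk1 ⟨f, hf⟩ ⟨0, hL1⟩ y₀ : Finset (Pt F κ L q))
      ∈ BB F κ L q := by
    intro f hf
    exact Finset.mem_union_left _ (mem_B1.mpr ⟨⟨f, hf⟩, ⟨0, hL1⟩, y₀, (hF f hf).1, rfl⟩)
  have hcardV : Fintype.card (Pt F κ L q ⊕ (ZMod n × Fin w)) = v := by
    have h2 : Fintype.card (ZMod n × Fin w) = w * n := by
      rw [Fintype.card_prod, ZMod.card, Fintype.card_fin, mul_comm]
    rw [hn, ← h2]
    exact Fintype.card_sum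
  have hcardD : (sumB (BB F κ L q) (CC κ u n hw)).card = v * L / (κ + 1) := by
    have h := card_mul_eq hdes
    rw [hcardV] at h
    rw [← h, Nat.mul_div_cancel _ (by omega)]
  have hspec := spec_sum (by omega : 1 ≤ κ) hgB hgC h1F (by
      intro b hb
      rcases Finset.mem_union.mp hb with hb | hb
      · obtain ⟨⟨f, hf⟩, x, y, hx, rfl⟩ := mem_B1.mp hb
        rw [clique_blk1 hκ0 hx, card_clq hF']
        exact hf
      · obtain ⟨v', s, c, hs, rfl⟩ := mem_B2.mp hb
        rw [clique_blk2 hκ0 hκ hL hs, Finset.card_singleton]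
        exact h1F) (by
      intro f hf
      refine ⟨_, hb₀ f hf, ?_⟩
      have hx : (⟨0, hL1⟩ : Fin L).1 < (⟨f, hf⟩ : {f // f ∈ F}).1 := (hF f hf).1
      rw [clique_blk1 hκ0 hx, card_clq hF']) hK'
  rw [hcardD] at hspec
  refine ⟨Pt F κ L q ⊕ (ZMod n × Fin w), inferInstance, inferInstance,
    sumB (BB F κ L q) (CC κ u n hw), hcardV, ?_, hdes, hspec⟩
  have hmem : (blk1 ⟨1, h1F⟩ ⟨0, hL1⟩ y₀ : Finset (Pt F κ L q)).disjSum
      (∅ : Finset (ZMod n × Fin w)) ∈ sumB (BB F κ L q) (CC κ u n hw) :=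
    mem_sumB.mpr (Or.inl ⟨_, hb₀ 1 h1F, rfl⟩)
  have h := Finset.card_le_univ ((blk1 ⟨1, h1F⟩ ⟨0, hL1⟩ y₀ :
    Finset (Pt F κ L q)).disjSum (∅ : Finset (ZMod n × Fin w)))
  rwa [hdes.1 _ hmem, hcardV] at h

end Pool.Agent.Results.MP_13ec72_co.ArbitrarySpectrum
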