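import Pool.Agent.Results.MP_13ec72_co.ArbitrarySpectrum

/-!
# Spectra of minimal defining sets of regular graphs are arbitrary up to translation

A simple `1`-`(v,2,lam)` design is a `lam`-regular graph.  For every `lam ≥ 3` and every set
`J ⊆ {1, ..., lam - 2}` containing `1` there is a `lam`-regular graph whose minimal defining
sets have exactly the sizes `e - lam - j` with `j ∈ J`, where `e` is its number of edges.
-/

namespace Pool.Agent.Results.MP_13ec72_co.GraphSpectra

open Finset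
open Pool.Agent.Results.MP_13ec72_co.ArbitrarySpectrum

section Switch

variable {V : Type} [Fintype V] [DecidableEq V]

/-- If two blocks can be switched, one of them is in every defining set. -/
lemma switch {κ lam : ℕ} {B : Finset (Finset V)} (hB : IsDesign 1 (κ + 1) lam B)
    {b c : Finset V} (hb : b ∈ B) (hc : c ∈ B) {x y : V} (hxb : x ∈ b) (hxc : x ∉ c)
    (hyc : y ∈ c) (hyb : y ∉ b) (hb' : insert y (b.erase x) ∉ B)
    (hc' : insert x (c.erase y) ∉ B)
    {S : Finset (Finset V)} (hS : IsDefining 1 (κ + 1) lam B S) : b ∈ S ∨ c ∈ S := by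
  by_contra hcon
  push Not at hcon
  obtain ⟨hbS, hcS⟩ := hcon
  obtain ⟨hB1, hB2⟩ := isDesign_one.mp hB
  have hxy : x ≠ y := fun h => hyb (h ▸ hxb)
  set b' := insert y (b.erase x) with hb'def
  set c' := insert x (c.erase y) with hc'def
  have hbc' : b' ≠ c' := by
    intro h
    have h1 : y ∈ c' := by rw [← h]; exact Finset.mem_insert_self _ _
    rw [hc'def, Finset.mem_insert, Finset.mem_erase] at h1
    rcases h1 with h1 | h1
    · exact hxy h1.symm
    · exact h1.1 rfl
  have hbc0 : b ≠ c := fun h => hxc (h ▸ hxb)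
  set B₀ := (B.erase b).erase c with hB₀
  have hb'0 : b' ∉ insert c' B₀ := by
    rw [Finset.mem_insert, hB₀, Finset.mem_erase, Finset.mem_erase]
    rintro (h | h)
    · exact hbc' h
    · exact hb' h.2.2
  have hc'0 : c' ∉ B₀ := by
    rw [hB₀, Finset.mem_erase, Finset.mem_erase]
    intro h
    exact hc' h.2.2
  have hb0 : b ∉ insert c B₀ := by
    rw [Finset.mem_insert, hB₀, Finset.mem_erase, Finset.mem_erase]
    rintro (h | h)
    · exact hbc0 h
    · exact h.2.1 rfl
  have hc0 : c ∉ B₀ := by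
    rw [hB₀, Finset.mem_erase]
    intro h
    exact h.1 rfl
  have hBeq : B = insert b (insert c B₀) := by
    rw [hB₀, Finset.insert_erase (Finset.mem_erase.mpr ⟨hbc0.symm, hc⟩), Finset.insert_erase hb]
  have hdegins : ∀ (d : Finset V) (X : Finset (Finset V)) (p : V), d ∉ X →
      ((insert d X).filter (fun b => p ∈ b)).card
        = (if p ∈ d then 1 else 0) + (X.filter (fun b => p ∈ b)).card := by
    intro d X p hd
    rw [Finset.filter_insert]
    split_ifs with h
    · rw [Finset.card_insert_of_notMem (fun h' => hd (Finset.mem_filter.mp h').1), add_comm]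
    · simp
  have hdesign : IsDesign 1 (κ + 1) lam (insert b' (insert c' B₀)) := by
    rw [isDesign_one]
    constructor
    · intro d hd
      rw [Finset.mem_insert, Finset.mem_insert] at hd
      rcases hd with rfl | rfl | hd
      · have h1 : y ∉ b.erase x := fun h => hyb (Finset.mem_erase.mp h).2
        rw [hb'def, Finset.card_insert_of_notMem h1, Finset.card_erase_of_mem hxb, hB1 b hb]
        rfl
      · have h1 : x ∉ c.erase y := fun h => hxc (Finset.mem_erase.mp h).2
        rw [hc'def, Finset.card_insert_of_notMem h1, Finset.card_erase_of_mem hyc, hB1 c hc]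
        rfl
      · exact hB1 d (Finset.mem_erase.mp (Finset.mem_erase.mp hd).2).2
    · intro p
      have e := hB2 p
      rw [hBeq, hdegins b _ p hb0, hdegins c _ p hc0] at e
      rw [hdegins b' _ p hb'0, hdegins c' _ p hc'0]
      have key : (if p ∈ b' then 1 else 0) + (if p ∈ c' then 1 else 0)
          = (if p ∈ b then 1 else 0) + (if p ∈ c then (1 : ℕ) else 0) := by
        rcases eq_or_ne p x with rfl | hpx
        · have h1 : p ∉ b' := by
            rw [hb'def, Finset.mem_insert, Finset.mem_erase]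
            rintro (h | h)
            · exact hxy h
            · exact h.1 rfl
          have h2 : p ∈ c' := Finset.mem_insert_self _ _
          simp [h1, h2, hxb, hxc]
        · rcases eq_or_ne p y with rfl | hpy
          · have h1 : p ∈ b' := Finset.mem_insert_self _ _
            have h2 : p ∉ c' := by
              rw [hc'def, Finset.mem_insert, Finset.mem_erase]
              rintro (h | h)
              · exact hpx h
              · exact h.1 rfl
            simp [h1, h2, hyb, hyc]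
          · have h1 : p ∈ b' ↔ p ∈ b := by
              rw [hb'def, Finset.mem_insert, Finset.mem_erase]
              constructor
              · rintro (h | h)
                · exact absurd h hpy
                · exact h.2
              · intro h
                exact Or.inr ⟨hpx, h⟩
            have h2 : p ∈ c' ↔ p ∈ c := by
              rw [hc'def, Finset.mem_insert, Finset.mem_erase]
              constructor
              · rintro (h | h)
                · exact absurd h hpx
                · exact h.2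
              · intro h
                exact Or.inr ⟨hpy, h⟩
            simp [h1, h2]
      omega
  have hsub : S ⊆ insert b' (insert c' B₀) := by
    intro d hd
    have hdB := hS.1 hd
    rw [Finset.mem_insert, Finset.mem_insert]
    refine Or.inr (Or.inr ?_)
    rw [hB₀, Finset.mem_erase, Finset.mem_erase]
    exact ⟨fun h => hcS (h ▸ hd), fun h => hbS (h ▸ hd), hdB⟩
  have heq := hS.2 _ hdesign hsub
  exact hb' (heq ▸ Finset.mem_insert_self _ _)

end Switch

section Graph

variable {V ι : Type} [Fintype V] [DecidableEq V]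

/-- The edges of a graph, as two-element sets. -/
def E (Adj : V → V → Prop) [DecidableRel Adj] : Finset (Finset V) :=
  (univ.filter (fun r : V × V => Adj r.1 r.2)).image (fun r => {r.1, r.2})

/-- The set of edges which contain `x` or form a triangle with `x`. -/
def T (Adj : V → V → Prop) [DecidableRel Adj] (x : V) : Finset (Finset V) :=
  (E Adj).filter (fun f => x ∈ f ∨ ∀ a ∈ f, Adj x a)

/-- The structure used: a regular graph with vertex disjoint clusters `cl`, in which every
triangle lies in a cluster, the edges of a cluster are covered by `T` of one vertex, and the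
edges in every neighbourhood form a star. -/
structure Hyp (Adj : V → V → Prop) [DecidableRel Adj] (cl : V → ι) (U : ι → V)
    (lam : ℕ) : Prop where
  symm : ∀ a b, Adj a b → Adj b a
  irrefl : ∀ a, ¬ Adj a a
  deg : ∀ a, (univ.filter (fun b => Adj a b)).card = lam
  h1 : ∀ a b b', Adj a b → Adj a b' → cl b = cl b' → cl a ≠ cl b → b = b'
  h2 : ∀ a b c, Adj a b → Adj a c → Adj b c → cl a = cl b
  h4 : ∀ a b, Adj a b → cl a = cl b →
    U (cl a) = a ∨ U (cl a) = b ∨ (Adj (U (cl a)) a ∧ Adj (U (cl a)) b)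
  h5 : ∀ x, ∃ c, Adj x c ∧ ∀ a b, Adj x a → Adj x b → Adj a b → c = a ∨ c = b
  h6 : ∀ x, ∃ z, Adj x z ∧ cl x ≠ cl z
  h7 : ∀ x, ∃ a, Adj x a ∧ cl x = cl a

variable {Adj : V → V → Prop} [DecidableRel Adj] {cl : V → ι} {U : ι → V} {lam : ℕ}

lemma mem_E {e : Finset V} : e ∈ E Adj ↔ ∃ a b, Adj a b ∧ e = {a, b} := by
  unfold E
  rw [Finset.mem_image]
  constructor
  · rintro ⟨⟨a, b⟩, h, rfl⟩
    exact ⟨a, b, (Finset.mem_filter.mp h).2, rfl⟩
  · rintro ⟨a, b, h, rfl⟩
    exact ⟨(a, b), Finset.mem_filter.mpr ⟨Finset.mem_univ _, h⟩, rfl⟩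

lemma pair_eq {a b c d : V} (h : ({a, b} : Finset V) = {c, d}) :
    (a = c ∧ b = d) ∨ (a = d ∧ b = c) := by
  have h1 : a = c ∨ a = d := by
    have : a ∈ ({c, d} : Finset V) := by rw [← h]; simp
    simpa using this
  have h2 : b = c ∨ b = d := by
    have : b ∈ ({c, d} : Finset V) := by rw [← h]; simp
    simpa using this
  have h3 : c = a ∨ c = b := by
    have : c ∈ ({a, b} : Finset V) := by rw [h]; simp
    simpa using this
  have h4 : d = a ∨ d = b := by
    have : d ∈ ({a, b} : Finset V) := by rw [h]; simp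
    simpa using this
  rcases h1 with h1 | h1
  · rcases h4 with h4 | h4
    · rcases h2 with h2 | h2
      · left; exact ⟨h1, by rw [h2, ← h1, h4]⟩
      · left; exact ⟨h1, h2⟩
    · left; exact ⟨h1, h4.symm⟩
  · rcases h3 with h3 | h3
    · rcases h2 with h2 | h2
      · right; exact ⟨h1, h2⟩
      · right; exact ⟨h1, by rw [h2, ← h1, h3]⟩
    · right; exact ⟨h1, h3.symm⟩

lemma pair_mem_E (H : Hyp Adj cl U lam) {a b : V} : ({a, b} : Finset V) ∈ E Adj ↔ Adj a b := by
  rw [mem_E]
  constructor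
  · rintro ⟨c, d, h, e⟩
    rcases pair_eq e with ⟨rfl, rfl⟩ | ⟨rfl, rfl⟩
    · exact h
    · exact H.symm _ _ h
  · intro h
    exact ⟨a, b, h, rfl⟩

lemma mem_T {x : V} {f : Finset V} :
    f ∈ T Adj x ↔ f ∈ E Adj ∧ (x ∈ f ∨ ∀ a ∈ f, Adj x a) := by
  unfold T
  rw [Finset.mem_filter]

lemma T_subset (x : V) : T Adj x ⊆ E Adj := Finset.filter_subset _ _

lemma pair_mem_T (H : Hyp Adj cl U lam) {x a b : V} :
    ({a, b} : Finset V) ∈ T Adj x ↔ Adj a b ∧ (x = a ∨ x = b ∨ (Adj x a ∧ Adj x b)) := by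
  rw [mem_T, pair_mem_E H]
  simp [or_assoc]

lemma star_eq (H : Hyp Adj cl U lam) (p : V) :
    (E Adj).filter (fun f => p ∈ f)
      = (univ.filter (fun b => Adj p b)).image (fun b => {p, b}) := by
  ext f
  rw [Finset.mem_filter, mem_E, Finset.mem_image]
  constructor
  · rintro ⟨⟨a, b, h, rfl⟩, hp⟩
    rw [Finset.mem_insert, Finset.mem_singleton] at hp
    rcases hp with rfl | rfl
    · exact ⟨b, Finset.mem_filter.mpr ⟨Finset.mem_univ _, h⟩, rfl⟩
    · exact ⟨a, Finset.mem_filter.mpr ⟨Finset.mem_univ _, H.symm _ _ h⟩, Finset.pair_comm _ _⟩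
  · rintro ⟨b, h, rfl⟩
    exact ⟨⟨p, b, (Finset.mem_filter.mp h).2, rfl⟩, Finset.mem_insert_self _ _⟩

lemma isDesign_E (H : Hyp Adj cl U lam) : IsDesign 1 (1 + 1) lam (E Adj) := by
  rw [isDesign_one]
  constructor
  · intro f hf
    obtain ⟨a, b, h, rfl⟩ := mem_E.mp hf
    have hab : a ≠ b := fun e => H.irrefl a (by rw [e] at h ⊢; exact h)
    rw [Finset.card_pair hab]
  · intro p
    rw [star_eq H, Finset.card_image_of_injOn, H.deg p]
    intro b hb c hc h
    have h' : ({p, b} : Finset V) = {p, c} := h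
    rcases pair_eq h' with ⟨_, h1⟩ | ⟨h1, h2⟩
    · exact h1
    · rw [h2, h1]

/-- The complement of `T x` is a defining set. -/
lemma forced (H : Hyp Adj cl U lam) (x : V) :
    IsDefining 1 (1 + 1) lam (E Adj) (E Adj \ T Adj x) := by
  refine ⟨Finset.sdiff_subset, fun B' hB' hsub => ?_⟩
  have hE := isDesign_E H
  have hE2 := (isDesign_one.mp hE).2
  obtain ⟨hB1', hB2'⟩ := isDesign_one.mp hB'
  have step1 : ∀ f ∈ B', x ∈ f → f ∈ E Adj := by
    intro f hf hx
    obtain ⟨a, b, hab, rfl⟩ := Finset.card_eq_two.mp (hB1' f hf)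
    -- write the block as `{x, c}`
    obtain ⟨c, hxc, hc⟩ : ∃ c, x ≠ c ∧ ({a, b} : Finset V) = {x, c} := by
      rw [Finset.mem_insert, Finset.mem_singleton] at hx
      rcases hx with rfl | rfl
      · exact ⟨b, hab, rfl⟩
      · exact ⟨a, hab.symm, Finset.pair_comm _ _⟩
    rw [hc] at hf ⊢
    by_contra hnot
    rw [pair_mem_E H] at hnot
    have hss : (E Adj).filter (fun f => c ∈ f) ⊆ B'.filter (fun f => c ∈ f) := by
      intro g hg
      obtain ⟨hgE, hcg⟩ := Finset.mem_filter.mp hg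
      refine Finset.mem_filter.mpr ⟨hsub (Finset.mem_sdiff.mpr ⟨hgE, ?_⟩), hcg⟩
      rw [mem_T]
      rintro ⟨_, h | h⟩
      · obtain ⟨u, w, huw, rfl⟩ := mem_E.mp hgE
        rw [Finset.mem_insert, Finset.mem_singleton] at h hcg
        rcases h with rfl | rfl <;> rcases hcg with rfl | rfl
        · exact hxc rfl
        · exact hnot huw
        · exact hnot (H.symm _ _ huw)
        · exact hxc rfl
      · exact hnot (h c hcg)
    have heq : (E Adj).filter (fun f => c ∈ f) = B'.filter (fun f => c ∈ f) :=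
      Finset.eq_of_subset_of_card_le hss (by rw [hE2 c, hB2' c])
    have hmem : ({x, c} : Finset V) ∈ B'.filter (fun f => c ∈ f) :=
      Finset.mem_filter.mpr ⟨hf, by simp⟩
    rw [← heq] at hmem
    exact hnot ((pair_mem_E H).mp (Finset.mem_filter.mp hmem).1)
  have hstar : B'.filter (fun f => x ∈ f) = (E Adj).filter (fun f => x ∈ f) := by
    refine Finset.eq_of_subset_of_card_le ?_ (by rw [hE2 x, hB2' x])
    intro f hf
    obtain ⟨h1, h2⟩ := Finset.mem_filter.mp hf
    exact Finset.mem_filter.mpr ⟨step1 f h1 h2, h2⟩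
  obtain ⟨c, hxc, hc⟩ := H.h5 x
  have hcl := clique_defining hE (C := (E Adj).filter (fun f => x ∉ f ∧ ∀ a ∈ f, Adj x a))
    (Finset.filter_subset _ _) {c} (Finset.card_singleton c) (by
      intro f hf
      obtain ⟨hfE, _, hf2⟩ := Finset.mem_filter.mp hf
      obtain ⟨a, b, hab, rfl⟩ := mem_E.mp hfE
      rw [Finset.singleton_subset_iff, Finset.mem_insert, Finset.mem_singleton]
      exact hc a b (hf2 a (by simp)) (hf2 b (by simp)) hab)
  refine hcl.2 B' hB' ?_
  intro f hf
  obtain ⟨hfE, hf2⟩ := Finset.mem_sdiff.mp hf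
  by_cases hx : x ∈ f
  · have : f ∈ (E Adj).filter (fun f => x ∈ f) := Finset.mem_filter.mpr ⟨hfE, hx⟩
    rw [← hstar] at this
    exact (Finset.mem_filter.mp this).1
  · refine hsub (Finset.mem_sdiff.mpr ⟨hfE, ?_⟩)
    rw [mem_T]
    rintro ⟨_, h | h⟩
    · exact hx h
    · exact hf2 (Finset.mem_filter.mpr ⟨hfE, hx, h⟩)

/-- Disjoint edges outside a defining set form a triangle with each other. -/
lemma rel (H : Hyp Adj cl U lam) {S : Finset (Finset V)}
    (hS : IsDefining 1 (1 + 1) lam (E Adj) S) {a b c d : V} (hab : Adj a b) (hcd : Adj c d)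
    (habS : ({a, b} : Finset V) ∉ S) (hcdS : ({c, d} : Finset V) ∉ S)
    (hac : a ≠ c) (had : a ≠ d) (hbc : b ≠ c) (hbd : b ≠ d) :
    (Adj a c ∧ Adj a d) ∨ (Adj b c ∧ Adj b d) ∨ (Adj c a ∧ Adj c b) ∨ (Adj d a ∧ Adj d b) := by
  have hE := isDesign_E H
  have hne : ∀ {p r : V}, Adj p r → p ≠ r := fun h e => H.irrefl _ (by rw [e] at h; exact h)
  -- general switching statement
  have sw : ∀ a b c d : V, Adj a b → Adj c d → ({a, b} : Finset V) ∉ S →
      ({c, d} : Finset V) ∉ S → a ≠ c → a ≠ d → b ≠ c → b ≠ d → Adj a c ∨ Adj b d := by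
    intro a b c d hab hcd habS hcdS hac had hbc hbd
    by_contra hcon
    push Not at hcon
    obtain ⟨n1, n2⟩ := hcon
    have e1 : insert c (({a, b} : Finset V).erase b) = {a, c} := by
      have : ({a, b} : Finset V).erase b = {a} := by
        ext z
        simp only [Finset.mem_erase, Finset.mem_insert, Finset.mem_singleton]
        constructor
        · rintro ⟨h1, h2 | h2⟩
          · exact h2
          · exact absurd h2 h1
        · rintro rfl
          exact ⟨hne hab, Or.inl rfl⟩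
      rw [this, Finset.pair_comm]
    have e2 : insert b (({c, d} : Finset V).erase c) = {b, d} := by
      have : ({c, d} : Finset V).erase c = {d} := by
        ext z
        simp only [Finset.mem_erase, Finset.mem_insert, Finset.mem_singleton]
        constructor
        · rintro ⟨h1, h2 | h2⟩
          · exact absurd h2 h1
          · exact h2
        · rintro rfl
          exact ⟨(hne hcd).symm, Or.inr rfl⟩
      rw [this]
    rcases switch hE (b := {a, b}) (c := {c, d}) (x := b) (y := c) ((pair_mem_E H).mpr hab)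
      ((pair_mem_E H).mpr hcd) (by simp) (by simp [hbc, hbd]) (by simp)
      (by simp [hac.symm, hbc.symm]) (by rw [e1, pair_mem_E H]; exact n1)
      (by rw [e2, pair_mem_E H]; exact n2) hS with h | h
    · exact habS h
    · exact hcdS h
  have s1 := sw a b c d hab hcd habS hcdS hac had hbc hbd
  have s2 := sw a b d c hab (H.symm _ _ hcd) habS (by rwa [Finset.pair_comm]) had hac hbd hbc
  rcases s1 with s1 | s1 <;> rcases s2 with s2 | s2
  · exact Or.inl ⟨s1, s2⟩
  · exact Or.inr (Or.inr (Or.inl ⟨H.symm _ _ s1, H.symm _ _ s2⟩))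
  · exact Or.inr (Or.inr (Or.inr ⟨H.symm _ _ s2, H.symm _ _ s1⟩))
  · exact Or.inr (Or.inl ⟨s2, s1⟩)

/-- Every trade-free set of edges is contained in some `T x`. -/
lemma cover [Nonempty V] (H : Hyp Adj cl U lam) {S : Finset (Finset V)}
    (hS : IsDefining 1 (1 + 1) lam (E Adj) S) : ∃ x, E Adj \ T Adj x ⊆ S := by
  have hne : ∀ {p r : V}, Adj p r → p ≠ r := fun h e => H.irrefl _ (by rw [e] at h; exact h)
  -- it is enough to treat edges as ordered pairs
  suffices h : ∃ x, ∀ a b, Adj a b → ({a, b} : Finset V) ∉ S →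
      (x = a ∨ x = b ∨ (Adj x a ∧ Adj x b)) by
    obtain ⟨x, hx⟩ := h
    refine ⟨x, fun f hf => ?_⟩
    obtain ⟨hfE, hfT⟩ := Finset.mem_sdiff.mp hf
    obtain ⟨a, b, hab, rfl⟩ := mem_E.mp hfE
    by_contra hfS
    exact hfT ((pair_mem_T H).mpr ⟨hab, hx a b hab hfS⟩)
  by_cases hA : ∃ x z, Adj x z ∧ ({x, z} : Finset V) ∉ S ∧ cl x ≠ cl z
  · obtain ⟨x, z, hxz, hxzS, hcl⟩ := hA
    -- no triangle on the edge `x z`
    have notri : ∀ {t}, Adj x t → Adj z t → False := fun h1 h2 =>
      hcl (H.h2 x z _ hxz h1 h2)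
    have A1 : ∀ a b, Adj a b → ({a, b} : Finset V) ∉ S →
        (x = a ∨ x = b ∨ (Adj x a ∧ Adj x b)) ∨ (z = a ∨ z = b ∨ (Adj z a ∧ Adj z b)) := by
      intro a b hab habS
      by_contra hcon
      push Not at hcon
      obtain ⟨⟨n1, n2, n3⟩, ⟨n4, n5, n6⟩⟩ := hcon
      rcases rel H hS hxz hab hxzS habS n1 n2 n4 n5 with h | h | h | h
      · exact n3 h.1 h.2
      · exact n6 h.1 h.2
      · exact notri (H.symm _ _ h.1) (H.symm _ _ h.2)
      · exact notri (H.symm _ _ h.1) (H.symm _ _ h.2)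
    by_contra hcon
    push Not at hcon
    obtain ⟨a, b, hab, habS, n1, n2, n3⟩ := hcon x
    obtain ⟨c, d, hcd, hcdS, m1, m2, m3⟩ := hcon z
    have hz := (A1 a b hab habS).resolve_left (by
      rintro (h | h | h)
      · exact n1 h
      · exact n2 h
      · exact n3 h.1 h.2)
    have hx := (A1 c d hcd hcdS).resolve_right (by
      rintro (h | h | h)
      · exact m1 h
      · exact m2 h
      · exact m3 h.1 h.2)
    -- one-sided statement, used twice
    have caseI : ∀ b d, Adj z b → ({z, b} : Finset V) ∉ S → Adj x d →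
        ({x, d} : Finset V) ∉ S → x ≠ b → z ≠ d → False := by
      intro b d hzb hzbS hxd hxdS hxb hzd
      rcases eq_or_ne b d with rfl | hbd
      · exact notri hxd hzb
      · rcases rel H hS hzb hxd hzbS hxdS (hne hxz).symm hzd hxb.symm hbd with h | h | h | h
        · exact notri hxd h.2
        · exact notri (H.symm _ _ h.1) hzb
        · exact notri h.2 hzb
        · exact notri hxd (H.symm _ _ h.1)
    have caseII : ∀ x z, Adj x z → cl x ≠ cl z → (∀ {t}, Adj x t → Adj z t → False) →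
        ∀ b c d, Adj z b → ({z, b} : Finset V) ∉ S → x ≠ b → Adj c d →
        ({c, d} : Finset V) ∉ S → Adj x c → Adj x d → z ≠ c → z ≠ d → False := by
      intro x z hxz hcl notri b c d hzb hzbS hxb hcd hcdS hxc hxd hzc hzd
      have hclc : cl x = cl c := H.h2 x c d hxc hxd hcd
      rcases eq_or_ne b c with rfl | hbc
      · exact notri hxc hzb
      rcases eq_or_ne b d with rfl | hbd
      · exact notri hxd hzb
      rcases rel H hS hzb hcd hzbS hcdS hzc hzd hbc hbd with h | h | h | h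
      · exact notri hxc h.1
      · have h3 : cl b = cl c := H.h2 b c d h.1 h.2 hcd
        exact hxb (H.h1 z x b (H.symm _ _ hxz) hzb (hclc.trans h3.symm) hcl.symm)
      · exact notri hxc (H.symm _ _ h.1)
      · exact notri hxd (H.symm _ _ h.1)
    rcases hz with rfl | rfl | hz
    · rcases hx with rfl | rfl | hx
      · exact caseI b d hab habS hcd hcdS n2 m2
      · exact caseI b c hab habS (H.symm _ _ hcd) (by rwa [Finset.pair_comm]) n2 m1
      · exact caseII x z hxz hcl notri b c d hab habS n2 hcd hcdS hx.1 hx.2 m1 m2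
    · rcases hx with rfl | rfl | hx
      · exact caseI a d (H.symm _ _ hab) (by rwa [Finset.pair_comm]) hcd hcdS n1 m2
      · exact caseI a c (H.symm _ _ hab) (by rwa [Finset.pair_comm]) (H.symm _ _ hcd)
          (by rwa [Finset.pair_comm]) n1 m1
      · exact caseII x z hxz hcl notri a c d (H.symm _ _ hab) (by rwa [Finset.pair_comm])
          n1 hcd hcdS hx.1 hx.2 m1 m2
    · rcases hx with rfl | rfl | hx
      · exact caseII z x (H.symm _ _ hxz) hcl.symm (fun h1 h2 => notri h2 h1) d a b hcd hcdS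
          m2 hab habS hz.1 hz.2 n1 n2
      · exact caseII z x (H.symm _ _ hxz) hcl.symm (fun h1 h2 => notri h2 h1) c a b
          (H.symm _ _ hcd) (by rwa [Finset.pair_comm]) m1 hab habS hz.1 hz.2 n1 n2
      · have c1 : cl z = cl a := H.h2 z a b hz.1 hz.2 hab
        have c2 : cl z = cl b := H.h2 z b a hz.2 hz.1 (H.symm _ _ hab)
        have c3 : cl x = cl c := H.h2 x c d hx.1 hx.2 hcd
        have c4 : cl x = cl d := H.h2 x d c hx.2 hx.1 (H.symm _ _ hcd)
        have dis : ∀ {p r : V}, cl z = cl p → cl x = cl r → p ≠ r := by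
          intro p r hp hr h
          rw [h] at hp
          exact hcl (hr.trans hp.symm)
        rcases rel H hS hab hcd habS hcdS (dis c1 c3) (dis c1 c4) (dis c2 c3) (dis c2 c4)
          with h | h | h | h
        · exact hcl (c3.trans ((H.h2 a c d h.1 h.2 hcd).symm.trans c1.symm))
        · exact hcl (c3.trans ((H.h2 b c d h.1 h.2 hcd).symm.trans c2.symm))
        · exact hcl (c3.trans ((H.h2 c a b h.1 h.2 hab).trans c1.symm))
        · exact hcl (c4.trans ((H.h2 d a b h.1 h.2 hab).trans c1.symm))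
  · push Not at hA
    by_cases hB : ∃ a b, Adj a b ∧ ({a, b} : Finset V) ∉ S
    · obtain ⟨a₀, b₀, hab₀, habS₀⟩ := hB
      have hc0 := hA a₀ b₀ hab₀ habS₀
      refine ⟨U (cl a₀), fun a b hab habS => ?_⟩
      have hc := hA a b hab habS
      have key : cl a₀ = cl a := by
        by_contra hcon
        have dis : ∀ {p r : V}, cl p = cl a₀ → cl r = cl a → p ≠ r := by
          intro p r hp hr h
          rw [h] at hp
          exact hcon (hp.symm.trans hr)
        rcases rel H hS hab₀ hab habS₀ habS (dis rfl rfl) (dis rfl hc.symm)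
          (dis hc0.symm rfl) (dis hc0.symm hc.symm) with h | h | h | h
        · exact hcon (H.h2 a₀ a b h.1 h.2 hab)
        · exact hcon (hc0.trans (H.h2 b₀ a b h.1 h.2 hab))
        · exact hcon (H.h2 a a₀ b₀ h.1 h.2 hab₀).symm
        · exact hcon (hc.trans (H.h2 b a₀ b₀ h.1 h.2 hab₀)).symm
      rw [key]
      exact H.h4 a b hab hc
    · push Not at hB
      obtain ⟨x⟩ := (inferInstance : Nonempty V)
      exact ⟨x, fun a b hab habS => absurd (hB a b hab) habS⟩

lemma T_maximal (H : Hyp Adj cl U lam) {x y : V} (h : T Adj x ⊆ T Adj y) : x = y := by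
  obtain ⟨z, hxz, hcl⟩ := H.h6 x
  have h1 := h ((pair_mem_T H (x := x) (a := x) (b := z)).mpr ⟨hxz, Or.inl rfl⟩)
  rcases ((pair_mem_T H).mp h1).2 with h2 | h2 | h2
  · exact h2.symm
  · subst h2
    obtain ⟨a, hxa, hcla⟩ := H.h7 x
    have h3 := h ((pair_mem_T H (x := x) (a := x) (b := a)).mpr ⟨hxa, Or.inl rfl⟩)
    rcases ((pair_mem_T H).mp h3).2 with h4 | h4 | h4
    · exact h4.symm
    · rw [← h4] at hcla
      exact absurd hcla hcl
    · exact absurd (H.h2 x y a hxz hxa h4.2) hcl
  · exact absurd (H.h2 x z y hxz (H.symm _ _ h2.1) (H.symm _ _ h2.2)) hcl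

theorem spec_graph [Nonempty V] (H : Hyp Adj cl U lam) :
    Spec 1 (1 + 1) lam (E Adj) = {n | ∃ x, n = (E Adj \ T Adj x).card} := by
  ext n
  constructor
  · rintro ⟨S, ⟨hS, hmin⟩, rfl⟩
    obtain ⟨x, hx⟩ := cover H hS
    refine ⟨x, ?_⟩
    by_contra hcon
    have hss : E Adj \ T Adj x ⊂ S :=
      lt_of_le_of_ne hx fun h => hcon (by rw [h])
    exact hmin _ hss (forced H x)
  · rintro ⟨x, rfl⟩
    refine ⟨_, ⟨forced H x, ?_⟩, rfl⟩
    intro S' hS' hdef
    obtain ⟨y, hy⟩ := cover H hdef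
    have hxy : T Adj x ⊆ T Adj y := by
      intro f hf
      by_contra hfy
      have h1 : f ∈ S' := hy (Finset.mem_sdiff.mpr ⟨(mem_T.mp hf).1, hfy⟩)
      exact (Finset.mem_sdiff.mp (hS'.1 h1)).2 hf
    have := T_maximal H hxy
    subst this
    exact hS'.2 hy

lemma card_T (H : Hyp Adj cl U lam) {x c : V} (hxc : Adj x c)
    (hc : ∀ a b, Adj x a → Adj x b → Adj a b → c = a ∨ c = b) :
    (T Adj x).card = lam + (univ.filter (fun a => Adj x a ∧ Adj c a)).card := by
  have h1 : T Adj x = (E Adj).filter (fun f => x ∈ f)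
      ∪ (E Adj).filter (fun f => x ∉ f ∧ ∀ a ∈ f, Adj x a) := by
    ext f
    rw [mem_T, Finset.mem_union, Finset.mem_filter, Finset.mem_filter]
    tauto
  have h2 : Disjoint ((E Adj).filter (fun f => x ∈ f))
      ((E Adj).filter (fun f => x ∉ f ∧ ∀ a ∈ f, Adj x a)) := by
    rw [Finset.disjoint_left]
    intro f hf hf'
    exact (Finset.mem_filter.mp hf').2.1 (Finset.mem_filter.mp hf).2
  have h3 : (E Adj).filter (fun f => x ∉ f ∧ ∀ a ∈ f, Adj x a)
      = (univ.filter (fun a => Adj x a ∧ Adj c a)).image (fun a => {c, a}) := by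
    ext f
    rw [Finset.mem_filter, mem_E, Finset.mem_image]
    constructor
    · rintro ⟨⟨a, b, hab, rfl⟩, _, hf⟩
      have ha := hf a (by simp)
      have hb := hf b (by simp)
      rcases hc a b ha hb hab with rfl | rfl
      · exact ⟨b, Finset.mem_filter.mpr ⟨Finset.mem_univ _, hb, hab⟩, rfl⟩
      · exact ⟨a, Finset.mem_filter.mpr ⟨Finset.mem_univ _, ha, H.symm _ _ hab⟩,
          Finset.pair_comm _ _⟩
    · rintro ⟨a, ha, rfl⟩
      obtain ⟨_, ha1, ha2⟩ := Finset.mem_filter.mp ha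
      refine ⟨⟨c, a, ha2, rfl⟩, ?_, ?_⟩
      · rw [Finset.mem_insert, Finset.mem_singleton]
        rintro (h | h)
        · exact H.irrefl x (by rw [← h] at hxc; exact hxc)
        · exact H.irrefl x (by rw [← h] at ha1; exact ha1)
      · intro z hz
        rw [Finset.mem_insert, Finset.mem_singleton] at hz
        rcases hz with rfl | rfl
        · exact hxc
        · exact ha1
  have h4 : ((univ.filter (fun a => Adj x a ∧ Adj c a)).image
      (fun a => ({c, a} : Finset V))).card
        = (univ.filter (fun a => Adj x a ∧ Adj c a)).card := by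
    apply Finset.card_image_of_injOn
    intro a ha b hb h
    have h' : ({c, a} : Finset V) = {c, b} := h
    rcases pair_eq h' with ⟨_, h1⟩ | ⟨h1, h2⟩
    · exact h1
    · rw [h2, h1]
  have h5 : ((E Adj).filter (fun f => x ∈ f)).card = lam :=
    (isDesign_one.mp (isDesign_E H)).2 x
  rw [h1, Finset.card_union_of_disjoint h2, h3, h4, h5]

end Graph

section Construction

/-- The vertices of one book with `j` pages for every `j ∈ J`. -/
abbrev V0 (J : Finset ℕ) := Σ j : {j // j ∈ J}, (Fin 2 ⊕ Fin j.1)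

/-- The vertices of the graph. -/
abbrev Vx (J : Finset ℕ) (q : ℕ) := V0 J × (Fin 2 × ZMod q)

variable {J : Finset ℕ} {q lam : ℕ}

/-- The two spine vertices have kinds `0` and `1`, the pages have kind `2`. -/
def kind (v : V0 J) : ℕ :=
  match v with
  | ⟨_, Sum.inl i⟩ => i.1
  | ⟨_, Sum.inr _⟩ => 2

/-- The degree inside the book. -/
def bdeg (v : V0 J) : ℕ :=
  match v with
  | ⟨j, Sum.inl _⟩ => j.1 + 1
  | ⟨_, Sum.inr _⟩ => 2

/-- A bipartite graph of degree `d` on two copies of `ZMod q`. -/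
def fib (d : ℕ) (y z : Fin 2 × ZMod q) : Prop :=
  (y.1.1 = 0 ∧ z.1.1 = 1 ∧ ∃ s : Fin d, z.2 = y.2 + ((s.1 : ℕ) : ZMod q)) ∨
    (y.1.1 = 1 ∧ z.1.1 = 0 ∧ ∃ s : Fin d, z.2 = y.2 - ((s.1 : ℕ) : ZMod q))

variable (J q lam) in
/-- Adjacency. -/
def AdjG (p r : Vx J q) : Prop :=
  (p.2 = r.2 ∧ p.1.1 = r.1.1 ∧ kind p.1 ≠ kind r.1) ∨
    (p.1 = r.1 ∧ fib (lam - bdeg p.1) p.2 r.2)

variable (J q lam) in
noncomputable instance decAdj : DecidableRel (AdjG J q lam) := Classical.decRel _

/-- The cluster of a vertex. -/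
def clG (p : Vx J q) : {j // j ∈ J} × (Fin 2 × ZMod q) := (p.1.1, p.2)

/-- The first spine vertex of a cluster. -/
def UG (c : {j // j ∈ J} × (Fin 2 × ZMod q)) : Vx J q := (⟨c.1, Sum.inl 0⟩, c.2)

lemma clG_eq {p r : Vx J q} : clG p = clG r ↔ p.1.1 = r.1.1 ∧ p.2 = r.2 := by
  unfold clG
  rw [Prod.mk.injEq]

noncomputable instance decFib (d : ℕ) : DecidableRel (fib (q := q) d) := Classical.decRel _

lemma fib_ne {d : ℕ} {y z : Fin 2 × ZMod q} (h : fib d y z) : y.1.1 ≠ z.1.1 := by
  rcases h with h | h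
  · rw [h.1, h.2.1]; norm_num
  · rw [h.1, h.2.1]; norm_num

lemma fib_symm {d : ℕ} {y z : Fin 2 × ZMod q} (h : fib d y z) : fib d z y := by
  rcases h with ⟨h1, h2, s, h3⟩ | ⟨h1, h2, s, h3⟩
  · exact Or.inr ⟨h2, h1, s, by rw [h3]; ring⟩
  · exact Or.inl ⟨h2, h1, s, by rw [h3]; ring⟩

lemma kind_zero {v : V0 J} (h : kind v = 0) : v = ⟨v.1, Sum.inl 0⟩ := by
  obtain ⟨j, i | t⟩ := v
  · have h' : i.1 = 0 := h
    have : i = 0 := Fin.ext h'
    subst this
    rfl
  · exact absurd h (by show (2 : ℕ) ≠ 0; norm_num)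

lemma kind_one {v : V0 J} (h : kind v = 1) : v = ⟨v.1, Sum.inl 1⟩ := by
  obtain ⟨j, i | t⟩ := v
  · have h' : i.1 = 1 := h
    have : i = 1 := Fin.ext h'
    subst this
    rfl
  · exact absurd h (by show (2 : ℕ) ≠ 1; norm_num)

lemma kind_le (v : V0 J) : kind v ≤ 2 := by
  obtain ⟨j, i | t⟩ := v
  · have : i.1 < 2 := i.2
    show i.1 ≤ 2
    omega
  · exact le_refl 2

lemma kind_two {v : V0 J} (h : kind v = 2) : ∃ t, v = ⟨v.1, Sum.inr t⟩ := by
  obtain ⟨j, i | t⟩ := v
  · have h' : i.1 = 2 := h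
    have := i.2
    omega
  · exact ⟨t, rfl⟩

lemma adj_symm {p r : Vx J q} (h : AdjG J q lam p r) : AdjG J q lam r p := by
  rcases h with h | ⟨h1, h2⟩
  · exact Or.inl ⟨h.1.symm, h.2.1.symm, h.2.2.symm⟩
  · exact Or.inr ⟨h1.symm, h1 ▸ fib_symm h2⟩

lemma adj_cl {p r : Vx J q} (h : AdjG J q lam p r) (hc : clG p = clG r) :
    p.2 = r.2 ∧ p.1.1 = r.1.1 ∧ kind p.1 ≠ kind r.1 := by
  rcases h with h | ⟨h1, h2⟩
  · exact h
  · exfalso
    have : p.2 = r.2 := (clG_eq.mp hc).2
    exact fib_ne h2 (by rw [this])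

lemma adj_ncl {p r : Vx J q} (h : AdjG J q lam p r) (hc : clG p ≠ clG r) :
    p.1 = r.1 ∧ fib (lam - bdeg p.1) p.2 r.2 := by
  rcases h with h | h
  · exact absurd (clG_eq.mpr ⟨h.2.1, h.1⟩) hc
  · exact h

lemma adj_h2 {a b c : Vx J q} (hab : AdjG J q lam a b) (hac : AdjG J q lam a c)
    (hbc : AdjG J q lam b c) : clG a = clG b := by
  by_contra hcl
  obtain ⟨e1, f1⟩ := adj_ncl hab hcl
  have n1 := fib_ne f1
  rcases hac with hac | ⟨e2, f2⟩
  · rcases hbc with hbc | ⟨e3, f3⟩
    · exact n1 (by rw [hac.1, hbc.1])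
    · exact hac.2.2 (by rw [e1, e3])
  · rcases hbc with hbc | ⟨e3, f3⟩
    · exact hbc.2.2 (by rw [← e1, e2])
    · have n2 := fib_ne f2
      have n3 := fib_ne f3
      have l1 := a.2.1.2
      have l2 := b.2.1.2
      have l3 := c.2.1.2
      omega

/-- The centre of the star in the neighbourhood of a vertex. -/
def ctr (x : Vx J q) : Vx J q :=
  if kind x.1 = 0 then (⟨x.1.1, Sum.inl 1⟩, x.2) else (⟨x.1.1, Sum.inl 0⟩, x.2)

lemma adj_ctr (x : Vx J q) : AdjG J q lam x (ctr x) ∧ clG x = clG (ctr x) := by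
  unfold ctr
  split_ifs with h
  · refine ⟨Or.inl ⟨rfl, rfl, ?_⟩, rfl⟩
    rw [h]
    show (0 : ℕ) ≠ 1
    norm_num
  · exact ⟨Or.inl ⟨rfl, rfl, h⟩, rfl⟩

lemma ctr_spec {x a b : Vx J q} (hxa : AdjG J q lam x a) (hxb : AdjG J q lam x b)
    (hab : AdjG J q lam a b) : ctr x = a ∨ ctr x = b := by
  have c1 : clG x = clG a := adj_h2 hxa hxb hab
  have c2 : clG x = clG b := adj_h2 hxb hxa (adj_symm hab)
  obtain ⟨a1, a2, a3⟩ := adj_cl hxa c1
  obtain ⟨b1, b2, b3⟩ := adj_cl hxb c2
  obtain ⟨d1, d2, d3⟩ := adj_cl hab (c1.symm.trans c2)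
  have ka := kind_le a.1
  have kb := kind_le b.1
  unfold ctr
  split_ifs with h
  · rw [h] at a3 b3
    have : kind a.1 = 1 ∨ kind b.1 = 1 := by omega
    rcases this with h1 | h1
    · left
      refine Prod.ext ?_ a1
      rw [kind_one h1, a2]
    · right
      refine Prod.ext ?_ b1
      rw [kind_one h1, b2]
  · have kx := kind_le x.1
    have : kind a.1 = 0 ∨ kind b.1 = 0 := by omega
    rcases this with h1 | h1
    · left
      refine Prod.ext ?_ a1
      rw [kind_zero h1, a2]
    · right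
      refine Prod.ext ?_ b1
      rw [kind_zero h1, b2]

lemma castq {m n : ℕ} (hm : m < q) (hn : n < q) (h : (m : ZMod q) = (n : ZMod q)) :
    m = n := by
  have h1 := (ZMod.natCast_eq_natCast_iff' m n q).mp h
  rwa [Nat.mod_eq_of_lt hm, Nat.mod_eq_of_lt hn] at h1

variable [NeZero q]

lemma card_book (v : V0 J) (y : Fin 2 × ZMod q) :
    (univ.filter (fun r : Vx J q => y = r.2 ∧ v.1 = r.1.1 ∧ kind v ≠ kind r.1)).card
      = bdeg v := by
  have h1 : (univ.filter (fun r : Vx J q => y = r.2 ∧ v.1 = r.1.1 ∧ kind v ≠ kind r.1))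
      = (univ.filter (fun w : Fin 2 ⊕ Fin v.1.1 => kind v ≠ kind (⟨v.1, w⟩ : V0 J))).image
        (fun w => ((⟨v.1, w⟩ : V0 J), y)) := by
    ext r
    rw [Finset.mem_filter, Finset.mem_image]
    constructor
    · rintro ⟨_, h1, h2, h3⟩
      obtain ⟨⟨j, w⟩, z⟩ := r
      simp only at h1 h2 h3
      subst h1 h2
      exact ⟨w, Finset.mem_filter.mpr ⟨Finset.mem_univ _, h3⟩, rfl⟩
    · rintro ⟨w, hw, rfl⟩
      exact ⟨Finset.mem_univ _, rfl, rfl, (Finset.mem_filter.mp hw).2⟩
  rw [h1, Finset.card_image_of_injective]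
  · obtain ⟨j, i | t⟩ := v
    · have h2 : (univ.filter (fun w : Fin 2 ⊕ Fin j.1 =>
          kind (⟨j, Sum.inl i⟩ : V0 J) ≠ kind (⟨j, w⟩ : V0 J))) = univ.erase (Sum.inl i) := by
        ext w
        rw [Finset.mem_filter, Finset.mem_erase]
        constructor
        · rintro ⟨_, h⟩
          refine ⟨?_, Finset.mem_univ _⟩
          rintro rfl
          exact h rfl
        · rintro ⟨h, _⟩
          refine ⟨Finset.mem_univ _, ?_⟩
          rcases w with i' | t
          · intro h'
            have h'' : i.1 = i'.1 := h'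
            exact h (by rw [Fin.ext h''])
          · intro h'
            have h'' : i.1 = 2 := h'
            have := i.2
            omega
      show (univ.filter (fun w : Fin 2 ⊕ Fin j.1 =>
          kind (⟨j, Sum.inl i⟩ : V0 J) ≠ kind (⟨j, w⟩ : V0 J))).card = j.1 + 1
      rw [h2, Finset.card_erase_of_mem (Finset.mem_univ _), Finset.card_univ,
        Fintype.card_sum, Fintype.card_fin, Fintype.card_fin]
      omega
    · have h2 : (univ.filter (fun w : Fin 2 ⊕ Fin j.1 =>
          kind (⟨j, Sum.inr t⟩ : V0 J) ≠ kind (⟨j, w⟩ : V0 J)))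
            = (univ : Finset (Fin 2)).image Sum.inl := by
        ext w
        rw [Finset.mem_filter, Finset.mem_image]
        constructor
        · rintro ⟨_, h⟩
          rcases w with i' | t'
          · exact ⟨i', Finset.mem_univ _, rfl⟩
          · exact absurd rfl h
        · rintro ⟨i', _, rfl⟩
          refine ⟨Finset.mem_univ _, ?_⟩
          intro h'
          have h'' : 2 = i'.1 := h'
          have := i'.2
          omega
      show (univ.filter (fun w : Fin 2 ⊕ Fin j.1 =>
          kind (⟨j, Sum.inr t⟩ : V0 J) ≠ kind (⟨j, w⟩ : V0 J))).card = 2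
      rw [h2, Finset.card_image_of_injective _ Sum.inl_injective, Finset.card_univ,
        Fintype.card_fin]
  · intro w w' h
    have h' : ((⟨v.1, w⟩ : V0 J), y) = ((⟨v.1, w'⟩ : V0 J), y) := h
    have h2 := congrArg Prod.fst h'
    simpa using h2

lemma card_fib {d : ℕ} (hd : d ≤ q) (v : V0 J) (y : Fin 2 × ZMod q) :
    (univ.filter (fun r : Vx J q => v = r.1 ∧ fib d y r.2)).card = d := by
  classical
  obtain ⟨e, z⟩ := y
  have he : e.1 = 0 ∨ e.1 = 1 := by
    have := e.2
    omega
  rcases he with he | he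
  · have h1 : (univ.filter (fun r : Vx J q => v = r.1 ∧ fib d (e, z) r.2))
        = (univ : Finset (Fin d)).image
          (fun s => ((v, ((1 : Fin 2), z + ((s.1 : ℕ) : ZMod q))) : Vx J q)) := by
      ext r
      rw [Finset.mem_filter, Finset.mem_image]
      constructor
      · rintro ⟨_, h1, h2⟩
        rcases h2 with ⟨h3, h4, s, h5⟩ | ⟨h3, h4, s, h5⟩
        · refine ⟨s, Finset.mem_univ _, ?_⟩
          refine Prod.ext h1 (Prod.ext (Fin.ext ?_) h5.symm)
          exact h4.symm
        · simp only at h3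
          omega
      · rintro ⟨s, _, rfl⟩
        exact ⟨Finset.mem_univ _, rfl, Or.inl ⟨he, rfl, s, rfl⟩⟩
    rw [h1, Finset.card_image_of_injective, Finset.card_univ, Fintype.card_fin]
    intro s s' h
    simp only [Prod.mk.injEq, true_and, add_right_inj] at h
    exact Fin.ext (castq (lt_of_lt_of_le s.2 hd) (lt_of_lt_of_le s'.2 hd) h)
  · have h1 : (univ.filter (fun r : Vx J q => v = r.1 ∧ fib d (e, z) r.2))
        = (univ : Finset (Fin d)).image
          (fun s => ((v, ((0 : Fin 2), z - ((s.1 : ℕ) : ZMod q))) : Vx J q)) := by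
      ext r
      rw [Finset.mem_filter, Finset.mem_image]
      constructor
      · rintro ⟨_, h1, h2⟩
        rcases h2 with ⟨h3, h4, s, h5⟩ | ⟨h3, h4, s, h5⟩
        · simp only at h3
          omega
        · refine ⟨s, Finset.mem_univ _, ?_⟩
          refine Prod.ext h1 (Prod.ext (Fin.ext ?_) h5.symm)
          exact h4.symm
      · rintro ⟨s, _, rfl⟩
        exact ⟨Finset.mem_univ _, rfl, Or.inr ⟨he, rfl, s, rfl⟩⟩
    rw [h1, Finset.card_image_of_injective, Finset.card_univ, Fintype.card_fin]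
    intro s s' h
    simp only [Prod.mk.injEq, true_and, sub_right_inj] at h
    exact Fin.ext (castq (lt_of_lt_of_le s.2 hd) (lt_of_lt_of_le s'.2 hd) h)

lemma bdeg_lt (hJ : ∀ j ∈ J, j + 2 ≤ lam) (hlam : 3 ≤ lam) (v : V0 J) : bdeg v < lam := by
  obtain ⟨j, i | t⟩ := v
  · have := hJ j.1 j.2
    show j.1 + 1 < lam
    omega
  · show 2 < lam
    omega

lemma hyp (hJ : ∀ j ∈ J, j + 2 ≤ lam) (hlam : 3 ≤ lam) (hq : lam ≤ q) :
    Hyp (AdjG J q lam) (clG (J := J) (q := q)) UG lam where
  symm := fun _ _ h => adj_symm h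
  irrefl := by
    rintro a (h | ⟨_, h⟩)
    · exact h.2.2 rfl
    · exact fib_ne h rfl
  deg := by
    intro a
    have h1 : (univ.filter (fun b => AdjG J q lam a b))
        = (univ.filter (fun r : Vx J q => a.2 = r.2 ∧ a.1.1 = r.1.1 ∧ kind a.1 ≠ kind r.1))
          ∪ (univ.filter (fun r : Vx J q => a.1 = r.1 ∧ fib (lam - bdeg a.1) a.2 r.2)) := by
      ext r
      simp only [Finset.mem_union, Finset.mem_filter, Finset.mem_univ, true_and]
      rfl
    have h2 : Disjoint
        (univ.filter (fun r : Vx J q => a.2 = r.2 ∧ a.1.1 = r.1.1 ∧ kind a.1 ≠ kind r.1))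
        (univ.filter (fun r : Vx J q => a.1 = r.1 ∧ fib (lam - bdeg a.1) a.2 r.2)) := by
      rw [Finset.disjoint_left]
      intro r h h'
      obtain ⟨_, h1, _, _⟩ := Finset.mem_filter.mp h
      obtain ⟨_, _, h3⟩ := Finset.mem_filter.mp h'
      exact fib_ne h3 (by rw [h1])
    rw [h1, Finset.card_union_of_disjoint h2, card_book, card_fib (by omega)]
    have := bdeg_lt hJ hlam a.1
    omega
  h1 := by
    intro a b b' hab hab' hbb' hcl
    obtain ⟨e1, _⟩ := adj_ncl hab hcl
    obtain ⟨e2, _⟩ := adj_ncl hab' (hbb' ▸ hcl)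
    exact Prod.ext (e1.symm.trans e2) (clG_eq.mp hbb').2
  h2 := fun _ _ _ h1 h2 h3 => adj_h2 h1 h2 h3
  h4 := by
    intro a b hab hcl
    obtain ⟨h1, h2, h3⟩ := adj_cl hab hcl
    by_cases ha : kind a.1 = 0
    · left
      refine Prod.ext ?_ rfl
      exact (kind_zero ha).symm
    by_cases hb : kind b.1 = 0
    · right; left
      refine Prod.ext ?_ h1
      rw [kind_zero hb, ← h2]
      rfl
    · right; right
      refine ⟨Or.inl ⟨rfl, rfl, ?_⟩, Or.inl ⟨h1, h2, ?_⟩⟩
      · exact fun h => ha h.symm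
      · exact fun h => hb h.symm
  h5 := fun x => ⟨ctr x, (adj_ctr x).1, fun a b h1 h2 h3 => ctr_spec h1 h2 h3⟩
  h6 := by
    intro x
    have hd : 0 < lam - bdeg x.1 := by
      have := bdeg_lt hJ hlam x.1
      omega
    have he : x.2.1.1 = 0 ∨ x.2.1.1 = 1 := by
      have := x.2.1.2
      omega
    rcases he with he | he
    · have hf : fib (lam - bdeg x.1) x.2 ((1 : Fin 2), x.2.2) :=
        Or.inl ⟨he, rfl, ⟨0, hd⟩, by simp⟩
      refine ⟨(x.1, ((1 : Fin 2), x.2.2)), Or.inr ⟨rfl, hf⟩, ?_⟩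
      intro h
      exact fib_ne hf (by rw [(clG_eq.mp h).2])
    · have hf : fib (lam - bdeg x.1) x.2 ((0 : Fin 2), x.2.2) :=
        Or.inr ⟨he, rfl, ⟨0, hd⟩, by simp⟩
      refine ⟨(x.1, ((0 : Fin 2), x.2.2)), Or.inr ⟨rfl, hf⟩, ?_⟩
      intro h
      exact fib_ne hf (by rw [(clG_eq.mp h).2])
  h7 := fun x => ⟨ctr x, adj_ctr x⟩

/-- The number of common neighbours of `x` and `ctr x`. -/
lemma card_common (x : Vx J q) :
    (univ.filter (fun a => AdjG J q lam x a ∧ AdjG J q lam (ctr x) a)).card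
      = if kind x.1 = 2 then 1 else x.1.1.1 := by
  have hxc := adj_ctr (lam := lam) x
  -- common neighbours lie in the cluster
  have hcl : ∀ a, AdjG J q lam x a → AdjG J q lam (ctr x) a →
      x.2 = a.2 ∧ x.1.1 = a.1.1 ∧ kind x.1 ≠ kind a.1 ∧ kind (ctr x).1 ≠ kind a.1 := by
    intro a h1 h2
    have c1 : clG x = clG a := adj_h2 h1 hxc.1 (adj_symm h2)
    obtain ⟨e1, e2, e3⟩ := adj_cl h1 c1
    obtain ⟨_, _, e4⟩ := adj_cl h2 (hxc.2.symm.trans c1)
    exact ⟨e1, e2, e3, e4⟩
  split_ifs with h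
  · have hk : kind (ctr x).1 = 0 := by
      unfold ctr
      rw [if_neg (by omega)]
      rfl
    rw [Finset.card_eq_one]
    refine ⟨(⟨x.1.1, Sum.inl 1⟩, x.2), ?_⟩
    ext a
    rw [Finset.mem_filter, Finset.mem_singleton]
    constructor
    · rintro ⟨_, h1, h2⟩
      obtain ⟨e1, e2, e3, e4⟩ := hcl a h1 h2
      have ka := kind_le a.1
      have h1' : kind a.1 = 1 := by omega
      refine Prod.ext ?_ e1.symm
      rw [kind_one h1', e2]
    · rintro rfl
      refine ⟨Finset.mem_univ _, Or.inl ⟨rfl, rfl, ?_⟩, Or.inl ⟨?_, ?_, ?_⟩⟩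
      · rw [h]
        show (2 : ℕ) ≠ 1
        norm_num
      · exact (clG_eq.mp hxc.2).2.symm
      · exact (clG_eq.mp hxc.2).1.symm
      · rw [hk]
        show (0 : ℕ) ≠ 1
        norm_num
  · have hkx := kind_le x.1
    have hk : kind (ctr x).1 = 1 - kind x.1 := by
      unfold ctr
      split_ifs with h0
      · rw [h0]
        rfl
      · have : kind x.1 = 1 := by omega
        rw [this]
        rfl
    have himg : (univ.filter (fun a => AdjG J q lam x a ∧ AdjG J q lam (ctr x) a))
        = (univ : Finset (Fin x.1.1.1)).image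
          (fun t => (((⟨x.1.1, Sum.inr t⟩ : V0 J), x.2) : Vx J q)) := by
      ext a
      rw [Finset.mem_filter, Finset.mem_image]
      constructor
      · rintro ⟨_, h1, h2⟩
        obtain ⟨e1, e2, e3, e4⟩ := hcl a h1 h2
        have ka := kind_le a.1
        have h1' : kind a.1 = 2 := by omega
        obtain ⟨t, ht⟩ := kind_two h1'
        obtain ⟨⟨j, w⟩, z⟩ := a
        simp only at e1 e2 ht
        subst e1 e2
        exact ⟨t, Finset.mem_univ _, by rw [ht]⟩
      · rintro ⟨t, _, rfl⟩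
        refine ⟨Finset.mem_univ _, Or.inl ⟨rfl, rfl, h⟩, Or.inl ⟨?_, ?_, ?_⟩⟩
        · exact (clG_eq.mp hxc.2).2.symm
        · exact (clG_eq.mp hxc.2).1.symm
        · rw [hk]
          show 1 - kind x.1 ≠ 2
          omega
    rw [himg, Finset.card_image_of_injective, Finset.card_univ, Fintype.card_fin]
    intro t t' h'
    simpa using h'

end Construction

/-- **Result.** For every `lam ≥ 3`, every set `J ⊆ {1, ..., lam - 2}` containing `1` and
every `N` there is a `lam`-regular graph with at least `N` vertices, that is, a simple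
`1`-`(v,2,lam)` design, whose minimal defining sets have exactly the sizes `e - lam - j` with
`j ∈ J`, where `e` is the number of edges. -/
theorem result :
    ∀ lam : ℕ, 3 ≤ lam → ∀ J : Finset ℕ, 1 ∈ J → (∀ j ∈ J, 1 ≤ j ∧ j + 2 ≤ lam) → ∀ N : ℕ,
      ∃ (V : Type) (_ : Fintype V) (_ : DecidableEq V) (B : Finset (Finset V)),
        N ≤ Fintype.card V ∧ IsDesign 1 2 lam B ∧
          Spec 1 2 lam B = {n | ∃ j ∈ J, n + (lam + j) = B.card} := by
  intro lam hlam J h1J hJ N
  obtain ⟨q, hq⟩ : ∃ q, q = lam + N := ⟨_, rfl⟩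
  haveI : NeZero q := ⟨by omega⟩
  have hJ' : ∀ j ∈ J, j + 2 ≤ lam := fun j hj => (hJ j hj).2
  have H := hyp (q := q) hJ' hlam (by omega)
  let x₀ : Vx J q := (⟨⟨1, h1J⟩, Sum.inl 0⟩, (0, 0))
  haveI : Nonempty (Vx J q) := ⟨x₀⟩
  have hT : ∀ x : Vx J q, (T (AdjG J q lam) x).card
      = lam + (if kind x.1 = 2 then 1 else x.1.1.1) := by
    intro x
    rw [card_T H (adj_ctr x).1 (fun a b h1 h2 h3 => ctr_spec h1 h2 h3), card_common]
  have hsz : ∀ x : Vx J q, (E (AdjG J q lam) \ T (AdjG J q lam) x).card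
      + (T (AdjG J q lam) x).card = (E (AdjG J q lam)).card := fun x =>
    Finset.card_sdiff_add_card_eq_card (T_subset x)
  refine ⟨Vx J q, inferInstance, inferInstance, E (AdjG J q lam), ?_, isDesign_E H, ?_⟩
  · have h1 : Function.Injective (fun z : ZMod q => ((x₀.1, ((0 : Fin 2), z)) : Vx J q)) := by
      intro z z' h
      simpa using h
    have h2 := Fintype.card_le_of_injective _ h1
    rw [ZMod.card] at h2
    exact le_trans (by omega) h2
  · have hs := spec_graph H
    rw [show (1 + 1 : ℕ) = 2 from rfl] at hs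
    rw [hs]
    ext n
    constructor
    · rintro ⟨x, rfl⟩
      have h1 := hsz x
      rw [hT x] at h1
      by_cases hk : kind x.1 = 2
      · rw [if_pos hk] at h1
        exact ⟨1, h1J, h1⟩
      · rw [if_neg hk] at h1
        exact ⟨x.1.1.1, x.1.1.2, h1⟩
    · rintro ⟨j, hj, hn⟩
      refine ⟨(⟨⟨j, hj⟩, Sum.inl 0⟩, (0, 0)), ?_⟩
      have h1 := hsz (⟨⟨j, hj⟩, Sum.inl 0⟩, (0, 0))
      rw [hT, if_neg (by show (0 : ℕ) ≠ 2; norm_num)] at h1
      have h2 : (E (AdjG J q lam) \ T (AdjG J q lam) (⟨⟨j, hj⟩, Sum.inl 0⟩, (0, 0))).card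
          + (lam + j) = (E (AdjG J q lam)).card := h1
      omega

end Pool.Agent.Results.MP_13ec72_co.GraphSpectra
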